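import Pool.Agent.Run7.h385.CR.MomB

/-!
# Project CR, piece T1M: the choice of the parameters
-/

set_option autoImplicit false
set_option maxHeartbeats 4000000

namespace Run7.h385.CR

open Finset Filter
open Pool.Agent.H469R2.NK (e)
open Pool.Agent.TH892.SW (ff sq_ff)
open Pool.Agent.H373R2.T7 (ev_log')
open Run7.h757.CR

lemma ev_lge (c : ℝ) : ∃ x0 : ℕ, ∀ x : ℕ, x0 ≤ x → c ≤ Real.log x :=
  eventually_atTop.1 ((Real.tendsto_log_atTop.comp tendsto_natCast_atTop_atTop).eventually_ge_atTop c)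

/-- the final numerical inequality -/
lemma final_ineq {Cw L X H U2 C2 : ℝ} {U B1 : ℕ} {t : ℝ}
    (hL : 972 * Cw + 432 + 36 * t ≤ L) (hL1 : 1 ≤ L) (hX : 0 ≤ X)
    (hU2 : U2 = L ^ U) (hC2 : 0 < C2)
    {b : ℝ} (hb : b = U2 * C2 * L ^ 4) {d u' : ℝ} (hd : d = b * b * U2 * L ^ 3)
    (hu' : u' = b * b * C2 * U2 * L)
    {A1 A2 : ℝ} (_hB1 : B1 = B1)
    (h1 : A1 ≤ Cw * (3 * H ^ 2 / b) * (3 * L) * (3 * X * C2 * (36 * L ^ 2)))
    (h2 : A2 ≤ H ^ 2 * (2 * (b * b)) * (3 * (2 * X / d * (36 * L ^ 2) + 6 * X * C2 * (t / u')))) :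
    A1 + A2 ≤ X * H ^ 2 / U2 := by
  have hL0 : 0 < L := by linarith
  have hU0 : 0 < U2 := by rw [hU2]; positivity
  have hb0 : 0 < b := by rw [hb]; positivity
  have e1 : Cw * (3 * H ^ 2 / b) * (3 * L) * (3 * X * C2 * (36 * L ^ 2)) = (X * H ^ 2 / U2) * (972 * Cw / L) := by
    rw [hb]; field_simp; ring
  have e2 : H ^ 2 * (2 * (b * b)) * (3 * (2 * X / d * (36 * L ^ 2) + 6 * X * C2 * (t / u'))) =
      (X * H ^ 2 / U2) * ((432 + 36 * t) / L) := by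
    rw [hd, hu']; field_simp; ring
  rw [e1] at h1
  rw [e2] at h2
  have h3 : 972 * Cw / L + (432 + 36 * t) / L ≤ 1 := by
    rw [← add_div, div_le_one hL0]; linarith
  have h4 : 0 ≤ X * H ^ 2 / U2 := by positivity
  calc A1 + A2 ≤ (X * H ^ 2 / U2) * (972 * Cw / L + (432 + 36 * t) / L) := by
        rw [mul_add]; linarith
    _ ≤ (X * H ^ 2 / U2) * 1 := by gcongr
    _ = _ := mul_one _

theorem t1m (hFI : S_FI) : S_T1M := by
  intro U C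
  obtain ⟨Cw, hCw, hwey⟩ := wey
  obtain ⟨B₁, hB₁⟩ : ∃ B₁ : ℕ, B₁ = U + 2 * C + 4 := ⟨_, rfl⟩
  obtain ⟨D, hD⟩ : ∃ D : ℕ, D = B₁ + B₁ + U + 3 := ⟨_, rfl⟩
  obtain ⟨U', hU'⟩ : ∃ U' : ℕ, U' = B₁ + B₁ + 2 * C + U + 1 := ⟨_, rfl⟩
  obtain ⟨CF, hCF⟩ := hFI (B₁ + 1) U'
  obtain ⟨B₂, hB₂⟩ : ∃ B₂ : ℕ, B₂ = D + 2 * C + 2 * CF + 1 := ⟨_, rfl⟩
  refine ⟨B₁, fun E hE => ?_⟩
  obtain ⟨XF, hXF⟩ := hCF (E + 1)
  obtain ⟨N2, hsq⟩ := sq_ff E
  obtain ⟨B, hB⟩ : ∃ B : ℕ, B = B₂ + 2 * C + 2 * CF + 2 := ⟨_, rfl⟩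
  obtain ⟨x1, hx1⟩ := ev_lge (972 * Cw + 432 + 36 * 2 ^ U' + 2 ^ (B₁ + 1) + 2 ^ (E + 1) + 10)
  obtain ⟨x2, hx2⟩ := ev_log' D 1
  obtain ⟨x3, hx3⟩ := ev_log' (2 * C) 3
  refine ⟨B, max (max (x1 + x2) (x3 + XF ^ 2)) (N2 + 1), fun X hX m H hH1 hH2 s hs => ?_⟩
  have hXx1 : x1 ≤ X := by
    have := (le_max_left _ _).trans ((le_max_left _ _).trans hX); omega
  have hXx2 : x2 ≤ X := by
    have := (le_max_left _ _).trans ((le_max_left _ _).trans hX); omega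
  have hXx3 : x3 ≤ X := by
    have := (le_max_right _ _).trans ((le_max_left _ _).trans hX); omega
  have hXXF : XF ^ 2 ≤ X := by
    have := (le_max_right _ _).trans ((le_max_left _ _).trans hX); omega
  have hXN2 : N2 + 1 ≤ X := (le_max_right _ _).trans hX
  have hLbig := hx1 X hXx1
  have hLD := hx2 X hXx2
  have hLC := hx3 X hXx3
  rw [one_mul] at hLD
  set L := Real.log X with hLdef
  have hCw0 : 0 ≤ Cw := by linarith
  have p1 : (0 : ℝ) < 2 ^ U' := by positivity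
  have p2 : (0 : ℝ) < 2 ^ (B₁ + 1) := by positivity
  have p3 : (0 : ℝ) < 2 ^ (E + 1) := by positivity
  have hL10 : 10 ≤ L := by nlinarith
  have hL0 : 0 < L := by linarith
  have hL1 : 1 ≤ L := by linarith
  have hLp : ∀ n : ℕ, 0 < L ^ n := fun n => by positivity
  have hLp1 : ∀ n : ℕ, 1 ≤ L ^ n := fun n => one_le_pow₀ hL1
  have hLmono : ∀ {i j : ℕ}, i ≤ j → L ^ i ≤ L ^ j := fun h => pow_le_pow_right₀ hL1 h
  have hX1 : (1 : ℝ) ≤ X := by exact_mod_cast (by omega : 1 ≤ X)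
  have hX0 : (0 : ℝ) < X := by linarith
  have hsX : √(X : ℝ) * √(X : ℝ) = X := Real.mul_self_sqrt hX0.le
  have hsX0 : 0 < √(X : ℝ) := Real.sqrt_pos.2 hX0
  have hsX1 : 1 ≤ √(X : ℝ) := by rw [Real.one_le_sqrt]; exact hX1
  -- H
  have h6 : (1 : ℝ) ≤ (X : ℝ) ^ (1 / 6 : ℝ) := Real.one_le_rpow hX1 (by norm_num)
  have hHB : L ^ B ≤ H := by
    calc L ^ B = 1 * L ^ B := by ring
      _ ≤ (X : ℝ) ^ (1 / 6 : ℝ) * L ^ B := by gcongr
      _ ≤ H := hH1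
  have hHr1 : (1 : ℝ) ≤ H := (hLp1 B).trans hHB
  have hH0 : (0 : ℝ) < H := by linarith
  have hHn : 1 ≤ H := by exact_mod_cast hHr1
  have h3 : (X : ℝ) ^ (1 / 3 : ℝ) * L ^ (2 * B) ≤ (H : ℝ) ^ 2 := by
    have e1 : (X : ℝ) ^ (1 / 3 : ℝ) = ((X : ℝ) ^ (1 / 6 : ℝ)) ^ 2 := by
      rw [← Real.rpow_natCast, ← Real.rpow_mul hX0.le]; norm_num
    calc (X : ℝ) ^ (1 / 3 : ℝ) * L ^ (2 * B) = ((X : ℝ) ^ (1 / 6 : ℝ) * L ^ B) ^ 2 := by
          rw [e1, mul_pow, ← pow_mul]; ring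
      _ ≤ (H : ℝ) ^ 2 := by gcongr
  have hHsq : (H : ℝ) ^ 2 ≤ X * L ^ (2 * C) := by
    have h1 : (H : ℝ) ≤ √X * L ^ C := by
      have : (0 : ℝ) ≤ m := Nat.cast_nonneg m
      linarith
    calc (H : ℝ) ^ 2 ≤ (√X * L ^ C) ^ 2 := by gcongr
      _ = (√X * √X) * L ^ (2 * C) := by ring
      _ = _ := by rw [hsX]
  -- K
  set K : ℕ := ⌈2 * (X : ℝ) * L ^ (2 * C)⌉₊ with hKdef
  have hK1 : 2 * (X : ℝ) * L ^ (2 * C) ≤ K := Nat.le_ceil _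
  have hXLC : (X : ℝ) ≤ X * L ^ (2 * C) := le_mul_of_one_le_right hX0.le (hLp1 _)
  have hK2 : (K : ℝ) ≤ 3 * X * L ^ (2 * C) := by
    have h1 : (K : ℝ) < 2 * (X : ℝ) * L ^ (2 * C) + 1 := Nat.ceil_lt_add_one (by positivity)
    linarith
  have hXK : (X : ℝ) ≤ K := by linarith
  have hK0 : (0 : ℝ) < K := by linarith
  have hKX2 : (K : ℝ) ≤ X * √X := by
    calc (K : ℝ) ≤ 3 * X * L ^ (2 * C) := hK2
      _ = X * (3 * L ^ (2 * C)) := by ring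
      _ ≤ X * √X := by gcongr
  have hlogK1 : L ≤ Real.log K := Real.log_le_log hX0 hXK
  have hlogK2 : Real.log K ≤ 2 * L := by
    have h1 : (K : ℝ) ≤ (X : ℝ) ^ 2 := by
      calc (K : ℝ) ≤ X * √X := hKX2
        _ ≤ X * (√X * √X) := by gcongr; nlinarith
        _ = X ^ 2 := by rw [hsX]; ring
    have h2 := Real.log_le_log hK0 h1
    rw [Real.log_pow] at h2
    push_cast at h2
    exact h2
  -- z
  set z : ℕ := ⌊L ^ E⌋₊ with hz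
  have hz1 : 1 ≤ z := by
    rw [hz]; exact Nat.le_floor (by push_cast; exact hLp1 E)
  have hz2 : (z : ℝ) ≤ L ^ E := Nat.floor_le (hLp E).le
  obtain ⟨hG, -⟩ := hsq K (by exact_mod_cast (by
    have : (N2 : ℝ) + 1 ≤ X := by exact_mod_cast hXN2
    linarith : (N2 : ℝ) ≤ K)) z hz1 (hz2.trans (pow_le_pow_left₀ hL0.le hlogK1 E))
  have hG0 : ∀ y : ℤ, |ff z y| ≤ 6 * L := fun y => (hG y).trans (by linarith)
  -- the parameters
  set q₀ : ℕ := ⌊L ^ B₁⌋₊ with hq₀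
  set Q : ℕ := ⌊(H : ℝ) ^ 2 / L ^ B₁⌋₊ with hQ
  set Y : ℕ := ⌊(H : ℝ) ^ 2 / L ^ B₂⌋₊ with hY
  set x₀ : ℕ := ⌈(X : ℝ) / L ^ D⌉₊ with hx₀
  have hq1 : (q₀ : ℝ) ≤ L ^ B₁ := Nat.floor_le (hLp _).le
  have hq2 : L ^ B₁ ≤ (q₀ : ℝ) + 1 := (Nat.lt_floor_add_one _).le
  have hQ1 : (Q : ℝ) ≤ (H : ℝ) ^ 2 / L ^ B₁ := Nat.floor_le (by positivity)
  have hQ2 : (H : ℝ) ^ 2 / L ^ B₁ ≤ Q + 1 := (Nat.lt_floor_add_one _).le
  have hY1 : (Y : ℝ) ≤ (H : ℝ) ^ 2 / L ^ B₂ := Nat.floor_le (by positivity)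
  have hY2 : (H : ℝ) ^ 2 / L ^ B₂ ≤ Y + 1 := (Nat.lt_floor_add_one _).le
  have hx₀1 : (X : ℝ) / L ^ D ≤ x₀ := Nat.le_ceil _
  have hx₀2 : (x₀ : ℝ) ≤ X / L ^ D + 1 := (Nat.ceil_lt_add_one (by positivity)).le
  have hHH : (H : ℝ) ≤ (H : ℝ) ^ 2 / L ^ B₁ := by
    rw [le_div_iff₀ (hLp _), sq]
    apply mul_le_mul_of_nonneg_left _ hH0.le
    exact (hLmono (by omega)).trans hHB
  have hQn : 1 ≤ Q := by
    rw [hQ]
    apply Nat.le_floor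
    push_cast
    linarith
  -- lower bound for Y
  have hYlow : (X : ℝ) ^ (1 / 3 : ℝ) * L ^ (2 * B - B₂ - 1) ≤ Y := by
    have e1 : L ^ (2 * B) = L ^ (2 * B - B₂ - 1) * L * L ^ B₂ := by
      rw [← pow_succ, ← pow_add]; congr 1; omega
    rw [e1] at h3
    have h4 : (X : ℝ) ^ (1 / 3 : ℝ) * (L ^ (2 * B - B₂ - 1) * L) ≤ (H : ℝ) ^ 2 / L ^ B₂ := by
      rw [le_div_iff₀ (hLp _)]
      calc _ = (X : ℝ) ^ (1 / 3 : ℝ) * (L ^ (2 * B - B₂ - 1) * L * L ^ B₂) := by ring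
        _ ≤ _ := h3
    have h5 : 1 ≤ (X : ℝ) ^ (1 / 3 : ℝ) * L ^ (2 * B - B₂ - 1) := by
      have h51 : (1 : ℝ) ≤ (X : ℝ) ^ (1 / 3 : ℝ) := Real.one_le_rpow hX1 (by norm_num)
      calc (1 : ℝ) = 1 * 1 := by ring
        _ ≤ _ := by gcongr; exact hLp1 _
    have h6 : (X : ℝ) ^ (1 / 3 : ℝ) * L ^ (2 * B - B₂ - 1) * 10 ≤ (X : ℝ) ^ (1 / 3 : ℝ) * L ^ (2 * B - B₂ - 1) * L := by
      gcongr
    have h7 : (X : ℝ) ^ (1 / 3 : ℝ) * (L ^ (2 * B - B₂ - 1) * L) = (X : ℝ) ^ (1 / 3 : ℝ) * L ^ (2 * B - B₂ - 1) * L := by ring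
    linarith
  have hYr1 : (1 : ℝ) ≤ Y := by
    have h51 : (1 : ℝ) ≤ (X : ℝ) ^ (1 / 3 : ℝ) := Real.one_le_rpow hX1 (by norm_num)
    calc (1 : ℝ) = 1 * 1 := by ring
      _ ≤ (X : ℝ) ^ (1 / 3 : ℝ) * L ^ (2 * B - B₂ - 1) := by gcongr; exact hLp1 _
      _ ≤ Y := hYlow
  have hYn : 1 ≤ Y := by exact_mod_cast hYr1
  -- upper bound for Y
  have hYup : (Y : ℝ) * L ^ (2 * CF) * L ≤ X / L ^ D := by
    have e1 : L ^ B₂ = L ^ (2 * CF) * L * L ^ D * L ^ (2 * C) := by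
      rw [hB₂]; ring
    rw [le_div_iff₀ (hLp _)]
    calc (Y : ℝ) * L ^ (2 * CF) * L * L ^ D ≤ ((H : ℝ) ^ 2 / L ^ B₂) * L ^ (2 * CF) * L * L ^ D := by gcongr
      _ ≤ (X * L ^ (2 * C) / L ^ B₂) * L ^ (2 * CF) * L * L ^ D := by gcongr
      _ = X := by rw [e1]; field_simp
  have hYY : 2 * Y ≤ Q + 1 := by
    have h1 : 2 * (Y : ℝ) ≤ (H : ℝ) ^ 2 / L ^ B₁ := by
      have e1 : L ^ B₂ = L ^ B₁ * (L * L ^ (B₂ - B₁ - 1)) := by
        rw [← pow_succ', ← pow_add]; congr 1; omega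
      have h2 : (2 : ℝ) ≤ L * L ^ (B₂ - B₁ - 1) := by
        have := hLp1 (B₂ - B₁ - 1)
        nlinarith
      calc 2 * (Y : ℝ) ≤ (L * L ^ (B₂ - B₁ - 1)) * ((H : ℝ) ^ 2 / L ^ B₂) := by gcongr
        _ = (H : ℝ) ^ 2 / L ^ B₁ := by rw [e1]; field_simp
    have h2 : (2 * (Y : ℝ)) ≤ Q + 1 := h1.trans hQ2
    exact_mod_cast h2
  have hx₀s : √(X : ℝ) ≤ x₀ := by
    refine le_trans ?_ hx₀1
    rw [le_div_iff₀ (hLp _)]
    calc √(X : ℝ) * L ^ D ≤ √X * √X := by gcongr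
      _ = X := hsX
  have hx₀n : 1 ≤ x₀ := by
    have : (1 : ℝ) ≤ x₀ := hsX1.trans hx₀s
    exact_mod_cast this
  -- the values
  have hval : ∀ a ∈ Icc (-(X : ℤ)) X, ∀ n ∈ Ioc m (m + H), s * ((n : ℤ) ^ 2 + a) ≤ K := by
    intro a ha n hn
    rw [mem_Icc] at ha
    rw [mem_Ioc] at hn
    have hn1 : (n : ℝ) ≤ √X * L ^ C := by
      have : (n : ℝ) ≤ m + H := by exact_mod_cast hn.2
      linarith
    have hn2 : (n : ℝ) ^ 2 ≤ X * L ^ (2 * C) := by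
      calc (n : ℝ) ^ 2 ≤ (√X * L ^ C) ^ 2 := by gcongr
        _ = (√X * √X) * L ^ (2 * C) := by ring
        _ = _ := by rw [hsX]
    have ha1 : (a : ℝ) ≤ X := by exact_mod_cast ha.2
    have ha2 : -(X : ℝ) ≤ a := by exact_mod_cast ha.1
    have hn0 : (0 : ℝ) ≤ (n : ℝ) ^ 2 := by positivity
    have h1 : ((s * ((n : ℤ) ^ 2 + a) : ℤ) : ℝ) ≤ K := by
      rcases hs with h | h
      · rw [h]; push_cast; linarith
      · rw [h]; push_cast; linarith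
    exact_mod_cast h1
  -- the short windows
  have hv0 : (0 : ℝ) ≤ 2 ^ U' / L ^ U' := by positivity
  have hV : ∀ q, 1 ≤ q → q ≤ q₀ → ∀ a x : ℕ, x₀ ≤ x → x < K →
      ∑ m ∈ Ioc x (2 * x), ‖∑ n ∈ Ioc m (m + Y), (ff z (n : ℤ) : ℂ) * e ((a : ℝ) * n / q)‖ ^ 2 ≤
        x * (Y : ℝ) ^ 2 * (2 ^ U' / L ^ U') := by
    intro q hqq1 hqq2 a x hxx1 hxx2
    have hxr1 : (x₀ : ℝ) ≤ x := by exact_mod_cast hxx1
    have hxr2 : (x : ℝ) ≤ K := by exact_mod_cast hxx2.le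
    have hxs : √(X : ℝ) ≤ x := hx₀s.trans hxr1
    have hx0 : (0 : ℝ) < x := by linarith
    have hlx1 : L / 2 ≤ Real.log x := by
      have h1 := Real.log_le_log hsX0 hxs
      rw [Real.log_sqrt hX0.le] at h1
      exact h1
    have hlx2 : Real.log x ≤ 2 * L := (Real.log_le_log hx0 hxr2).trans hlogK2
    have hlx0 : 0 < Real.log x := by linarith
    have hxXF : XF ≤ x := by
      have h1 : (XF : ℝ) ≤ √X := by
        apply Real.le_sqrt_of_sq_le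
        exact_mod_cast hXXF
      exact_mod_cast h1.trans hxs
    have hpw : ∀ k : ℕ, (2 : ℝ) ^ (k + 1) ≤ L → L ^ k ≤ Real.log x ^ (k + 1) := by
      intro k hk
      calc L ^ k ≤ (2 * Real.log x) ^ k := pow_le_pow_left₀ hL0.le (by linarith) k
        _ = 2 ^ k * Real.log x ^ k := mul_pow _ _ _
        _ ≤ Real.log x * Real.log x ^ k := by
            apply mul_le_mul_of_nonneg_right _ (by positivity)
            have : (2 : ℝ) ^ (k + 1) = 2 * 2 ^ k := by ring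
            linarith
        _ = _ := by ring
    have hqr : (q : ℝ) ≤ L ^ B₁ := by
      have : (q : ℝ) ≤ q₀ := by exact_mod_cast hqq2
      linarith
    have c1 : (q : ℝ) ≤ Real.log x ^ (B₁ + 1) := hqr.trans (hpw B₁ (by nlinarith))
    have c2 : q ≤ z := by
      rw [hz]
      exact Nat.le_floor (hqr.trans (hLmono hE))
    have c3 : (z : ℝ) ≤ Real.log x ^ (E + 1) := hz2.trans (hpw E (by nlinarith))
    have hlxC : Real.log x ^ CF ≤ L ^ (2 * CF) := by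
      calc Real.log x ^ CF ≤ (L ^ 2) ^ CF := by
            apply pow_le_pow_left₀ hlx0.le
            nlinarith
        _ = _ := by rw [← pow_mul]
    have c4 : (x : ℝ) ^ (1 / 3 : ℝ) * Real.log x ^ CF ≤ Y := by
      have h1 : (x : ℝ) ^ (1 / 3 : ℝ) ≤ (X : ℝ) ^ (1 / 3 : ℝ) * L ^ (2 * C + 1) := by
        have h2 : (x : ℝ) ≤ X * (L ^ (2 * C + 1)) ^ 3 := by
          calc (x : ℝ) ≤ 3 * X * L ^ (2 * C) := hxr2.trans hK2
            _ ≤ L * X * L ^ (2 * C) := by gcongr; linarith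
            _ = X * L ^ (2 * C + 1) := by ring
            _ ≤ X * (L ^ (2 * C + 1)) ^ 3 := by
                gcongr
                exact le_self_pow₀ (hLp1 _) (by norm_num)
        have h3 : (X : ℝ) * (L ^ (2 * C + 1)) ^ 3 = ((X : ℝ) ^ (1 / 3 : ℝ) * L ^ (2 * C + 1)) ^ 3 := by
          rw [mul_pow]
          congr 1
          rw [← Real.rpow_natCast, ← Real.rpow_mul hX0.le]
          norm_num
        rw [h3] at h2
        calc (x : ℝ) ^ (1 / 3 : ℝ) ≤ (((X : ℝ) ^ (1 / 3 : ℝ) * L ^ (2 * C + 1)) ^ 3) ^ (1 / 3 : ℝ) :=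
              Real.rpow_le_rpow hx0.le h2 (by norm_num)
          _ = _ := by
              rw [← Real.rpow_natCast, ← Real.rpow_mul (by positivity)]
              norm_num
      calc (x : ℝ) ^ (1 / 3 : ℝ) * Real.log x ^ CF ≤
            ((X : ℝ) ^ (1 / 3 : ℝ) * L ^ (2 * C + 1)) * L ^ (2 * CF) := by gcongr
        _ = (X : ℝ) ^ (1 / 3 : ℝ) * L ^ (2 * C + 1 + 2 * CF) := by rw [pow_add]; ring
        _ ≤ (X : ℝ) ^ (1 / 3 : ℝ) * L ^ (2 * B - B₂ - 1) := by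
            apply mul_le_mul_of_nonneg_left _ (by positivity)
            exact hLmono (by omega)
        _ ≤ Y := hYlow
    have c5 : (Y : ℝ) * Real.log x ^ CF ≤ x := by
      calc (Y : ℝ) * Real.log x ^ CF ≤ Y * L ^ (2 * CF) * 1 := by rw [mul_one]; gcongr
        _ ≤ Y * L ^ (2 * CF) * L := by gcongr
        _ ≤ X / L ^ D := hYup
        _ ≤ x := hx₀1.trans hxr1
    have h1 := hXF x hxXF z q hqq1 c1 c2 c3 a Y c4 c5
    refine h1.trans ?_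
    rw [div_eq_mul_inv]
    apply mul_le_mul_of_nonneg_left _ (by positivity)
    rw [inv_le_comm₀ (by positivity) (by positivity), inv_div]
    calc L ^ U' / 2 ^ U' = (L / 2) ^ U' := by rw [div_pow]
      _ ≤ Real.log x ^ U' := pow_le_pow_left₀ (by positivity) hlx1 _
  have hff0 : ∀ v : ℤ, v ≤ 0 → ff z v = 0 := by
    intro v hv
    unfold ff
    rw [if_neg (by omega)]
  have hcore := core Cw hCw hwey (ff z) hff0 (6 * L) hG0 X K m H Y Q q₀ x₀ s hs hval hHn hQn hYn hYY hx₀n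
    (2 ^ U' / L ^ U') hv0 hV
  refine hcore.trans ?_
  refine final_ineq (Cw := Cw) (L := L) (X := (X : ℝ)) (H := (H : ℝ)) (U := U) (B1 := B₁) (C2 := L ^ (2 * C)) (b := L ^ B₁) (d := L ^ D) (u' := L ^ U') (t := 2 ^ U')
    (by linarith) hL1 hX0.le rfl (hLp _) ?_ ?_ ?_ rfl ?_ ?_
  · rw [hB₁, pow_add, pow_add]
  · rw [hD, pow_add, pow_add, pow_add]
  · rw [hU', pow_add, pow_add, pow_add, pow_add, pow_one]
  · -- minor arcs
    have hlogQ : 1 + Real.log Q ≤ 3 * L := by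
      have h1 : (Q : ℝ) ≤ K := by
        calc (Q : ℝ) ≤ (H : ℝ) ^ 2 / L ^ B₁ := hQ1
          _ ≤ (H : ℝ) ^ 2 := div_le_self (by positivity) (hLp1 _)
          _ ≤ X * L ^ (2 * C) := hHsq
          _ ≤ K := by linarith
      have h2 := Real.log_le_log (by exact_mod_cast hQn) h1
      linarith
    have h1 : (H : ℝ) ^ 2 / (q₀ + 1) + H + Q ≤ 3 * (H : ℝ) ^ 2 / L ^ B₁ := by
      have h2 : (H : ℝ) ^ 2 / (q₀ + 1) ≤ (H : ℝ) ^ 2 / L ^ B₁ := by gcongr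
      have h3 : 3 * (H : ℝ) ^ 2 / L ^ B₁ = 3 * ((H : ℝ) ^ 2 / L ^ B₁) := by ring
      linarith
    have hlQ0 : 0 ≤ 1 + Real.log Q := by
      have := Real.log_nonneg (show (1 : ℝ) ≤ Q by exact_mod_cast hQn)
      linarith
    calc Cw * ((H : ℝ) ^ 2 / (q₀ + 1) + H + Q) * (1 + Real.log Q) * (K * (6 * L) ^ 2)
        ≤ Cw * (3 * (H : ℝ) ^ 2 / L ^ B₁) * (3 * L) * ((3 * X * L ^ (2 * C)) * (6 * L) ^ 2) := by
          gcongr
      _ = _ := by ring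
  · -- major arcs
    have h1 : (q₀ : ℝ) * (q₀ + 1) ≤ 2 * (L ^ B₁ * L ^ B₁) := by
      have h2 : (q₀ : ℝ) + 1 ≤ 2 * L ^ B₁ := by
        have := hLp1 B₁
        linarith
      calc (q₀ : ℝ) * (q₀ + 1) ≤ L ^ B₁ * (2 * L ^ B₁) := by gcongr
        _ = _ := by ring
    have h2 : (x₀ : ℝ) + 2 * Y + 1 ≤ 2 * X / L ^ D := by
      have h3 : (Y : ℝ) * 10 ≤ X / L ^ D := by
        calc (Y : ℝ) * 10 ≤ Y * L := by gcongr
          _ = Y * 1 * L := by ring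
          _ ≤ Y * L ^ (2 * CF) * L := by gcongr; exact hLp1 _
          _ ≤ _ := hYup
      have h4 : 2 * (X : ℝ) / L ^ D = 2 * (X / L ^ D) := by ring
      linarith
    calc (H : ℝ) ^ 2 * (q₀ * (q₀ + 1)) * (3 * ((x₀ + 2 * Y + 1) * (6 * L) ^ 2 + 2 * K * (2 ^ U' / L ^ U')))
        ≤ (H : ℝ) ^ 2 * (2 * (L ^ B₁ * L ^ B₁)) * (3 * ((2 * X / L ^ D) * (6 * L) ^ 2 +
          2 * (3 * X * L ^ (2 * C)) * (2 ^ U' / L ^ U'))) := by
          gcongr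
      _ = _ := by ring

end Run7.h385.CR
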