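import Pool.Agent.TH892.SW.S9
import Pool.Agent.Run7.h757.CR.App

/-!
# Project CR, piece T1: one window, every integer `a`
(after `Pool.Agent.TH892.SW.S8`, which treats negative `a`)
-/

set_option autoImplicit false

namespace Run7.h385.CR

open Finset
open Pool.Agent.H373R2.T7 (pz Vz lamz mem_pz Vz_ge)
open Pool.Agent.TH892.SW (wt wt_nonneg wt_anti wt_le HP flq HP_nonneg Vz_pos lamz_nonneg abel_anti abel_mono ff ffn)

/-- the value `|n² + a|` -/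
def vz (a : ℤ) (n : ℕ) : ℕ := ((n : ℤ) ^ 2 + a).natAbs

open Classical in
lemma lam_sumz (z : ℕ) (a : ℤ) (m n : ℕ) (hmn : m ≤ n) :
    ∑ i ∈ Ioc m n, lamz z (vz a i) = (Vz z)⁻¹ *
      ((((Icc 1 (n - m)).filter (fun t : ℕ => ∀ p ∈ pz z, ¬ (p : ℤ) ∣ ((m : ℤ) + t) ^ 2 - (-a))).card : ℕ) : ℝ) := by
  have h1 : ∑ i ∈ Ioc m n, lamz z (vz a i) = ∑ t ∈ Icc 1 (n - m), lamz z (vz a (m + t)) := by
    refine sum_nbij' (fun i => i - m) (fun t => m + t) ?_ ?_ ?_ ?_ ?_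
    · intro i hi
      rw [mem_Ioc] at hi; rw [mem_Icc]; omega
    · intro t ht
      rw [mem_Icc] at ht; rw [mem_Ioc]; omega
    · intro i hi
      rw [mem_Ioc] at hi; omega
    · intro t ht
      omega
    · intro i hi
      rw [mem_Ioc] at hi
      show lamz z (vz a i) = lamz z (vz a (m + (i - m)))
      rw [show m + (i - m) = i by omega]
  rw [h1, card_filter]
  push_cast
  rw [mul_sum]
  refine sum_congr rfl fun t _ => ?_
  unfold lamz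
  have h2 : (∀ p ∈ pz z, ¬ p ∣ vz a (m + t)) ↔ (∀ p ∈ pz z, ¬ (p : ℤ) ∣ ((m : ℤ) + t) ^ 2 - (-a)) := by
    have h3 : ∀ p : ℕ, (p ∣ vz a (m + t)) ↔ ((p : ℤ) ∣ ((m : ℤ) + t) ^ 2 - (-a)) := by
      intro p
      unfold vz
      rw [← Int.natCast_dvd, sub_neg_eq_add]
      push_cast
      rfl
    constructor
    · intro h p hp hd
      exact h p hp ((h3 p).2 hd)
    · intro h p hp hd
      exact h p hp ((h3 p).1 hd)
  by_cases h4 : ∀ p ∈ pz z, ¬ p ∣ vz a (m + t)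
  · rw [if_pos h4, if_pos (h2.1 h4), mul_one]
  · rw [if_neg h4, if_neg (fun h => h4 (h2.2 h)), mul_zero]

/-- nonnegativity for every integer -/
lemma HPnn (K : ℤ) (z : ℕ) : 0 ≤ HP K z := HP_nonneg K z

/-- the model on short and long intervals -/
theorem modelz : ∃ C1 y0 : ℕ, 1 ≤ C1 ∧ 2 ≤ y0 ∧ ∀ b : ℕ, C1 ≤ b → ∀ z : ℕ, y0 ≤ z → ∀ (a : ℤ) (m n : ℕ), m ≤ n →
    |∑ i ∈ Ioc m n, (lamz z (vz a i) - HP (-a) z)| ≤
      2 * (1 / 2 : ℝ) ^ b * HP (-a) z * ((n : ℝ) - m) + 3 * (z : ℝ) ^ (C1 * b) * HP (-a) z := by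
  classical
  obtain ⟨C1, y0, hC1, hy0, h⟩ := flq
  refine ⟨C1, y0, hC1, hy0, fun b hb z hz a m n hmn => ?_⟩
  have hz1 : 1 ≤ z := by omega
  have hV := Vz_pos hz1
  have hH := HPnn (-a) z
  have hbig : ∀ c : ℕ, z ^ (C1 * b) ≤ c →
      |∑ i ∈ Ioc m (m + c), lamz z (vz a i) - c * HP (-a) z| ≤ 2 * (1 / 2 : ℝ) ^ b * HP (-a) z * c := by
    intro c hc
    have h1 := h b hb z hz c hc m (-a)
    rw [lam_sumz z a m (m + c) (by omega), Nat.add_sub_cancel_left]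
    set cd : ℝ := ((((Icc 1 c).filter (fun t : ℕ => ∀ p ∈ pz z, ¬ (p : ℤ) ∣ ((m : ℤ) + t) ^ 2 - (-a))).card : ℕ) : ℝ)
    have e : (Vz z)⁻¹ * cd - c * HP (-a) z = (Vz z)⁻¹ * (cd - c * (Vz z * HP (-a) z)) := by
      field_simp
    rw [e, abs_mul, abs_of_pos (inv_pos.2 hV)]
    calc (Vz z)⁻¹ * |cd - c * (Vz z * HP (-a) z)| ≤ (Vz z)⁻¹ * (2 * (1 / 2 : ℝ) ^ b * (c * (Vz z * HP (-a) z))) :=
          mul_le_mul_of_nonneg_left h1 (inv_nonneg.2 hV.le)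
      _ = _ := by field_simp
  rw [sum_sub_distrib, sum_const, Nat.card_Ioc, nsmul_eq_mul, Nat.cast_sub hmn]
  have h2b : 0 ≤ (1 / 2 : ℝ) ^ b := by positivity
  have h2b1 : (1 / 2 : ℝ) ^ b ≤ 1 / 2 := by
    calc (1 / 2 : ℝ) ^ b ≤ (1 / 2 : ℝ) ^ 1 := pow_le_pow_of_le_one (by norm_num) (by norm_num) (by omega)
      _ = 1 / 2 := pow_one _
  have hna : (0 : ℝ) ≤ (n : ℝ) - m := by
    rw [sub_nonneg]; exact_mod_cast hmn
  have hzp : (0 : ℝ) ≤ (z : ℝ) ^ (C1 * b) := by positivity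
  rcases Nat.lt_or_ge (n - m) (z ^ (C1 * b)) with hlt | hge
  · have h1 := hbig (z ^ (C1 * b)) le_rfl
    set c := z ^ (C1 * b) with hc
    have hcr : (c : ℝ) = (z : ℝ) ^ (C1 * b) := by rw [hc]; push_cast; rfl
    have h2 : ∑ i ∈ Ioc m n, lamz z (vz a i) ≤ ∑ i ∈ Ioc m (m + c), lamz z (vz a i) := by
      apply sum_le_sum_of_subset_of_nonneg
      · intro i hi
        rw [mem_Ioc] at hi ⊢
        omega
      · intro i _ _
        exact lamz_nonneg z _ hz1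
    have h3 : 0 ≤ ∑ i ∈ Ioc m n, lamz z (vz a i) := sum_nonneg fun i _ => lamz_nonneg z _ hz1
    have h4 := (abs_le.1 h1).2
    have h5 : ((n : ℝ) - m) ≤ c := by
      have : ((n - m : ℕ) : ℝ) ≤ c := by exact_mod_cast hlt.le
      rwa [Nat.cast_sub hmn] at this
    have h6 : ((n : ℝ) - m) * HP (-a) z ≤ c * HP (-a) z := mul_le_mul_of_nonneg_right h5 hH
    have h7 : 0 ≤ ((n : ℝ) - m) * HP (-a) z := mul_nonneg hna hH
    have h8 : 2 * (1 / 2 : ℝ) ^ b * HP (-a) z * c ≤ c * HP (-a) z := by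
      have h9 : 2 * (1 / 2 : ℝ) ^ b * (HP (-a) z * c) ≤ 1 * (HP (-a) z * c) := by
        apply mul_le_mul_of_nonneg_right (by linarith)
        apply mul_nonneg hH (by rw [hcr]; exact hzp)
      linarith
    have h9 : 0 ≤ 2 * (1 / 2 : ℝ) ^ b * HP (-a) z * ((n : ℝ) - m) := by positivity
    have h10 : 0 ≤ (c : ℝ) * HP (-a) z := mul_nonneg (by rw [hcr]; exact hzp) hH
    rw [abs_le]
    rw [← hcr]
    constructor <;> linarith
  · have h1 := hbig (n - m) hge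
    rw [show m + (n - m) = n by omega, Nat.cast_sub hmn] at h1
    have : 0 ≤ 3 * (z : ℝ) ^ (C1 * b) * HP (-a) z := by positivity
    linarith

lemma vz_right (a : ℤ) (n : ℕ) (h : Nat.sqrt (-a).toNat < n) : vz a n ≤ vz a (n + 1) := by
  rw [Nat.sqrt_lt'] at h
  unfold vz
  have h1 : -a < (n : ℤ) ^ 2 := by
    have h2 : ((-a).toNat : ℤ) < (n : ℤ) ^ 2 := by exact_mod_cast h
    have h3 := Int.self_le_toNat (-a)
    linarith
  have hn0 : (0 : ℤ) ≤ n := Int.natCast_nonneg n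
  zify
  rw [abs_of_pos (by linarith), abs_of_pos (by nlinarith)]
  nlinarith

lemma vz_left (a : ℤ) (n : ℕ) (h : n + 1 ≤ Nat.sqrt (-a).toNat) : vz a (n + 1) ≤ vz a n := by
  rw [Nat.le_sqrt'] at h
  unfold vz
  have h0 : 0 < (-a).toNat := by
    have : 0 < (n + 1) ^ 2 := by positivity
    omega
  have h1 : ((n : ℤ) + 1) ^ 2 ≤ -a := by
    have h2 : ((n : ℤ) + 1) ^ 2 ≤ ((-a).toNat : ℤ) := by exact_mod_cast h
    have h3 : ((-a).toNat : ℤ) = -a := Int.toNat_of_nonneg (by omega)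
    linarith
  have hn0 : (0 : ℤ) ≤ n := Int.natCast_nonneg n
  zify
  rw [abs_of_nonpos (by linarith), abs_of_nonpos (by nlinarith)]
  nlinarith

theorem model_wz : ∃ C1 y0 : ℕ, 1 ≤ C1 ∧ 2 ≤ y0 ∧ ∀ b : ℕ, C1 ≤ b → ∀ z : ℕ, y0 ≤ z → ∀ (a : ℤ) (m n : ℕ), m ≤ n →
    (∀ i : ℕ, 2 ≤ vz a i) →
    |∑ i ∈ Ioc m n, wt (vz a i) * (lamz z (vz a i) - HP (-a) z)| ≤
      2 * (1 / 2 : ℝ) ^ b * HP (-a) z * ∑ i ∈ Ioc m n, wt (vz a i) + 9 * (z : ℝ) ^ (C1 * b) * HP (-a) z := by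
  obtain ⟨C1, y0, hC1, hy0, h⟩ := modelz
  refine ⟨C1, y0, hC1, hy0, fun b hb z hz a m n hmn hv => ?_⟩
  have hH := HPnn (-a) z
  set δ : ℝ := 2 * (1 / 2 : ℝ) ^ b * HP (-a) z with hδ
  set R : ℝ := 3 * (z : ℝ) ^ (C1 * b) * HP (-a) z with hR
  have hδ0 : 0 ≤ δ := by positivity
  have hR0 : 0 ≤ R := by positivity
  have hw32 : ∀ i, wt (vz a i) ≤ 3 / 2 := fun i => wt_le (hv i)
  have hR9 : 9 * (z : ℝ) ^ (C1 * b) * HP (-a) z = 3 * R := by rw [hR]; ring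
  rw [hR9]
  have right : ∀ c d : ℕ, Nat.sqrt (-a).toNat ≤ c → c ≤ d →
      |∑ i ∈ Ioc c d, wt (vz a i) * (lamz z (vz a i) - HP (-a) z)| ≤
        δ * ∑ i ∈ Ioc c d, wt (vz a i) + 3 / 2 * R := by
    intro c d hc hcd
    rcases Nat.eq_or_lt_of_le hcd with heq | hlt
    · rw [heq, Ioc_self, sum_empty, sum_empty, abs_zero, mul_zero, zero_add]
      positivity
    · refine (abel_anti (fun i => wt (vz a i)) (fun i => lamz z (vz a i) - HP (-a) z) c d hlt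
        (fun i => wt_nonneg _) ?_ δ R hδ0 hR0 (fun i h1 _ => h b hb z hz a c i h1)).trans ?_
      · intro i h1 _
        apply wt_anti (hv i)
        exact vz_right a i (by omega)
      · have := mul_le_mul_of_nonneg_left (hw32 (c + 1)) hR0
        linarith
  have left : ∀ c d : ℕ, c ≤ d → d ≤ Nat.sqrt (-a).toNat →
      |∑ i ∈ Ioc c d, wt (vz a i) * (lamz z (vz a i) - HP (-a) z)| ≤
        δ * ∑ i ∈ Ioc c d, wt (vz a i) + 3 / 2 * R := by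
    intro c d hcd hd
    rcases Nat.eq_or_lt_of_le hcd with heq | hlt
    · rw [heq, Ioc_self, sum_empty, sum_empty, abs_zero, mul_zero, zero_add]
      positivity
    · refine (abel_mono (fun i => wt (vz a i)) (fun i => lamz z (vz a i) - HP (-a) z) c d hlt
        (fun i => wt_nonneg _) ?_ δ R hδ0 hR0 (fun i _ h2 => h b hb z hz a i d h2)).trans ?_
      · intro i _ h2
        apply wt_anti (hv (i + 1))
        exact vz_left a i (by omega)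
      · have := mul_le_mul_of_nonneg_left (hw32 d) hR0
        linarith
  rcases Nat.le_total n (Nat.sqrt (-a).toNat) with h1 | h1
  · have := left m n hmn h1
    linarith
  · rcases Nat.le_total (Nat.sqrt (-a).toNat) m with h2 | h2
    · have := right m n h2 hmn
      linarith
    · have h3 := left m _ h2 le_rfl
      have h4 := right _ n le_rfl h1
      rw [← sum_Ioc_consecutive _ h2 h1, ← sum_Ioc_consecutive (fun i => wt (vz a i)) h2 h1]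
      refine (abs_add_le _ _).trans ?_
      linarith

/-- `ff` at `|v|` -/
lemma ff_abs (z : ℕ) (v : ℤ) : ff z |v| = ff z (1 * v) + ff z (-1 * v) := by
  unfold ff
  rcases le_or_gt 0 v with h | h
  · rw [abs_of_nonneg h, one_mul, if_neg (show ¬ (2 : ℤ) ≤ -1 * v by omega), add_zero]
  · rw [abs_of_neg h, if_neg (show ¬ (2 : ℤ) ≤ 1 * v by omega), zero_add]
    have : -1 * v = -v := by ring
    rw [this]

lemma ff_vz (z : ℕ) (a : ℤ) (n : ℕ) (h : 2 ≤ vz a n) :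
    ff z (1 * ((n : ℤ) ^ 2 + a)) + ff z (-1 * ((n : ℤ) ^ 2 + a)) =
      (if (vz a n).Prime then 1 else 0) - lamz z (vz a n) * wt (vz a n) := by
  rw [← ff_abs]
  have h1 : |(n : ℤ) ^ 2 + a| = (vz a n : ℤ) := by
    unfold vz
    rw [Int.abs_eq_natAbs]
  unfold ff
  rw [h1, if_pos (by exact_mod_cast h), Int.toNat_natCast]
  rfl

/-- one number `a` -/
theorem one_windowz : ∃ C1 y0 : ℕ, 1 ≤ C1 ∧ 2 ≤ y0 ∧ ∀ b : ℕ, C1 ≤ b → ∀ z : ℕ, y0 ≤ z →
    ∀ (a : ℤ) (m n : ℕ), m ≤ n → (∀ i : ℕ, 2 ≤ vz a i) →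
    |(((Ioc m n).filter (fun i => (vz a i).Prime)).card : ℝ) - HP (-a) z * ∑ i ∈ Ioc m n, wt (vz a i)| ≤
      (|∑ i ∈ Ioc m n, ff z (1 * ((i : ℤ) ^ 2 + a))| + |∑ i ∈ Ioc m n, ff z (-1 * ((i : ℤ) ^ 2 + a))|) +
      2 * (1 / 2 : ℝ) ^ b * HP (-a) z * ∑ i ∈ Ioc m n, wt (vz a i) + 9 * (z : ℝ) ^ (C1 * b) * HP (-a) z := by
  obtain ⟨C1, y0, hC1, hy0, h⟩ := model_wz
  refine ⟨C1, y0, hC1, hy0, fun b hb z hz a m n hmn hv => ?_⟩
  have h1 := h b hb z hz a m n hmn hv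
  have e : (((Ioc m n).filter (fun i => (vz a i).Prime)).card : ℝ) - HP (-a) z * ∑ i ∈ Ioc m n, wt (vz a i) =
      (∑ i ∈ Ioc m n, ff z (1 * ((i : ℤ) ^ 2 + a)) + ∑ i ∈ Ioc m n, ff z (-1 * ((i : ℤ) ^ 2 + a))) +
        ∑ i ∈ Ioc m n, wt (vz a i) * (lamz z (vz a i) - HP (-a) z) := by
    rw [← sum_add_distrib, ← sum_add_distrib, card_filter]
    push_cast
    rw [mul_sum, ← sum_sub_distrib]
    refine sum_congr rfl fun i _ => ?_
    rw [ff_vz z a i (hv i)]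
    ring
  rw [e]
  refine (abs_add_le _ _).trans ?_
  have h2 := abs_add_le (∑ i ∈ Ioc m n, ff z (1 * ((i : ℤ) ^ 2 + a))) (∑ i ∈ Ioc m n, ff z (-1 * ((i : ℤ) ^ 2 + a)))
  linarith

end Run7.h385.CR
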