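import Pool.Agent.TH892.OW.B5c
import Pool.Agent.Run7.h385.CR.WinA

/-!
# Project CR, piece T1: every window of length `X^(1/6) (log X)^B`, almost all `a`
-/

set_option autoImplicit false
set_option maxHeartbeats 4000000

namespace Run7.h385.CR

open Finset Filter Topology
open Pool.Agent.H373R2.T7 (pz Vz lamz mem_pz Vz_ge Vz_inv_small)
open Pool.Agent.H442R2.EHI (evt_log_pow evt_log_ge)
open Pool.Agent.TH892.OW (evt_ll)
open Pool.Agent.TH892.SW (wt wt_nonneg HP Vz_pos HP_ge fin_K ff)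
open Run7.h757.CR

open Classical in
/-- few `a` for which some value is `0` or `±1` -/
lemma near_sqz (X : ℕ) : (((Icc (-(X : ℤ)) X).filter (fun a : ℤ => ∃ n : ℕ, vz a n ≤ 1)).card : ℝ) ≤
    3 * ((Nat.sqrt X : ℝ) + 3) := by
  have hsub : (Icc (-(X : ℤ)) X).filter (fun a : ℤ => ∃ n : ℕ, vz a n ≤ 1) ⊆
      (range (Nat.sqrt X + 3) ×ˢ range 3).image (fun p : ℕ × ℕ => (p.2 : ℤ) - 1 - (p.1 : ℤ) ^ 2) := by
    intro a ha
    rw [mem_filter, mem_Icc] at ha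
    obtain ⟨⟨h1, h2⟩, n, hn⟩ := ha
    have h3 : |(n : ℤ) ^ 2 + a| ≤ 1 := by
      unfold vz at hn
      rw [Int.abs_eq_natAbs]
      exact_mod_cast hn
    rw [abs_le] at h3
    rw [mem_image]
    refine ⟨(n, ((n : ℤ) ^ 2 + a + 1).toNat), ?_, ?_⟩
    · rw [mem_product, mem_range, mem_range]
      constructor
      · show n < Nat.sqrt X + 3
        by_contra hcon
        push Not at hcon
        have h4 : Nat.sqrt X + 2 < n := by omega
        have h5 : X < (Nat.sqrt X + 1) ^ 2 := Nat.lt_succ_sqrt' X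
        have h6 : (Nat.sqrt X + 3) ^ 2 ≤ n ^ 2 := Nat.pow_le_pow_left (by omega) 2
        have h7 : (n : ℤ) ^ 2 ≤ X + 1 := by linarith
        have h8 : n ^ 2 ≤ X + 1 := by exact_mod_cast h7
        nlinarith
      · show ((n : ℤ) ^ 2 + a + 1).toNat < 3
        omega
    · show ((((n : ℤ) ^ 2 + a + 1).toNat : ℕ) : ℤ) - 1 - (n : ℤ) ^ 2 = a
      rw [Int.toNat_of_nonneg (by linarith)]
      ring
  have h1 := (card_le_card hsub).trans card_image_le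
  rw [card_product, card_range, card_range] at h1
  have h2 : (((Icc (-(X : ℤ)) X).filter (fun a : ℤ => ∃ n : ℕ, vz a n ≤ 1)).card : ℝ) ≤
      (((Nat.sqrt X + 3) * 3 : ℕ) : ℝ) := by exact_mod_cast h1
  push_cast at h2
  linarith

/-- lower bound for the sum of the weights -/
lemma low_wz (C X : ℕ) (a : ℤ) (m H : ℕ) (L S : ℝ) (hL : L = Real.log X) (hL1 : 1 ≤ L) (hS1 : 1 ≤ S) (hSS : S * S = X)
    (hSbig : 2 * L ^ (2 * C) ≤ S) (ha : a ∈ Icc (-(X : ℤ)) X) (hvn : ∀ i, 2 ≤ vz a i)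
    (hNS : (m : ℝ) + H ≤ S * L ^ C) :
    (H : ℝ) / (2 * L) ≤ ∑ i ∈ Ioc m (m + H), wt (vz a i) := by
  have hX0' : (0 : ℝ) < X := by rw [← hSS]; positivity
  have hSX2 : S ≤ X := by rw [← hSS]; nlinarith
  rw [mem_Icc] at ha
  have ha1 : (a : ℝ) ≤ X := by exact_mod_cast ha.2
  have ha2 : -(X : ℝ) ≤ a := by exact_mod_cast ha.1
  have h1 : ∀ i ∈ Ioc m (m + H), 1 / (2 * L) ≤ wt (vz a i) := by
    intro i hi
    rw [mem_Ioc] at hi
    unfold Pool.Agent.TH892.SW.wt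
    have h2 := hvn i
    have h3 : (2 : ℝ) ≤ vz a i := by exact_mod_cast h2
    have h4 : (vz a i : ℝ) ≤ (X : ℝ) ^ 2 := by
      have h6 : (vz a i : ℝ) = |(i : ℝ) ^ 2 + a| := by
        have : ((vz a i : ℕ) : ℤ) = |(i : ℤ) ^ 2 + a| := by
          unfold vz; rw [Int.abs_eq_natAbs]
        exact_mod_cast this
      have h8 : (i : ℝ) ≤ S * L ^ C := by
        have : (i : ℝ) ≤ m + H := by exact_mod_cast hi.2
        linarith
      have h9 := pow_le_pow_left₀ (Nat.cast_nonneg i) h8 2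
      have h10 : (S * L ^ C) ^ 2 = X * L ^ (2 * C) := by
        rw [mul_pow, sq S, hSS, ← pow_mul, mul_comm C 2]
      rw [h10] at h9
      have h11 : (1 : ℝ) ≤ L ^ (2 * C) := one_le_pow₀ hL1
      have h12 : (X : ℝ) * L ^ (2 * C) * 2 ≤ X * X := by
        calc (X : ℝ) * L ^ (2 * C) * 2 = X * (2 * L ^ (2 * C)) := by ring
          _ ≤ X * X := by
              apply mul_le_mul_of_nonneg_left _ hX0'.le
              linarith
      have h13 : (X : ℝ) ≤ X * L ^ (2 * C) := le_mul_of_one_le_right hX0'.le h11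
      have h14 : (0 : ℝ) ≤ (i : ℝ) ^ 2 := by positivity
      rw [h6, abs_le]
      constructor <;> nlinarith
    apply one_div_le_one_div_of_le (Real.log_pos (by linarith))
    have h5 := Real.log_le_log (by linarith) h4
    rw [Real.log_pow, ← hL] at h5
    exact_mod_cast h5
  calc (H : ℝ) / (2 * L) = ∑ _i ∈ Ioc m (m + H), 1 / (2 * L) := by
        rw [sum_const, Nat.card_Ioc, nsmul_eq_mul, Nat.add_sub_cancel_left]
        ring
    _ ≤ _ := sum_le_sum h1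

open Classical in
/-- Chebyshev's inequality -/
lemma cheb (g : ℤ → ℝ) (X : ℕ) (M τ : ℝ) (hτ : 0 < τ) (h : ∑ a ∈ Icc (-(X : ℤ)) X, g a ^ 2 ≤ M) :
    (((Icc (-(X : ℤ)) X).filter (fun a => τ < |g a|)).card : ℝ) ≤ M / τ ^ 2 := by
  rw [le_div_iff₀ (by positivity)]
  refine le_trans ?_ h
  calc (((Icc (-(X : ℤ)) X).filter (fun a => τ < |g a|)).card : ℝ) * τ ^ 2 =
        ∑ a ∈ (Icc (-(X : ℤ)) X).filter (fun a => τ < |g a|), τ ^ 2 := by rw [sum_const, nsmul_eq_mul]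
    _ ≤ ∑ a ∈ (Icc (-(X : ℤ)) X).filter (fun a => τ < |g a|), g a ^ 2 := by
        refine sum_le_sum fun a ha => ?_
        rw [mem_filter] at ha
        rw [← sq_abs (g a)]
        exact pow_le_pow_left₀ hτ.le ha.2.le 2
    _ ≤ _ := sum_le_sum_of_subset_of_nonneg (filter_subset _ _) (fun _ _ _ => sq_nonneg _)

/-- the number of steps of the sieve -/
lemma choose_b (U E C1 : ℕ) : ∃ X0 : ℕ, ∀ X : ℕ, X0 ≤ X → ∃ b : ℕ, C1 ≤ b ∧
    4 * (1 / 2 : ℝ) ^ b + 1 / Real.log X ^ (U + 1) ≤ 1 / Real.log X ^ U ∧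
    Real.log X ^ (E * (C1 * b) + (U + 1) + 4) ≤ (X : ℝ) ^ (1 / 6 : ℝ) := by
  obtain ⟨k1, hk1⟩ : ∃ k1, k1 = E * (C1 * (C1 + 1 + 2 * (U + 2))) + (U + 1) + 4 := ⟨_, rfl⟩
  obtain ⟨X0, hX0⟩ := eventually_atTop.1 ((evt_log_ge 100).and (evt_ll 2 1 (6 * k1) (by norm_num)))
  refine ⟨max X0 1, fun X hX => ?_⟩
  obtain ⟨hL100, hk⟩ := hX0 X ((le_max_left _ _).trans hX)
  have hX1 : (0 : ℝ) < X := by
    have : 1 ≤ X := (le_max_right _ _).trans hX
    exact_mod_cast (by omega : 0 < X)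
  rw [Real.rpow_one] at hk
  obtain ⟨L, hLd⟩ : ∃ L, L = Real.log X := ⟨_, rfl⟩
  rw [← hLd] at hL100 hk ⊢
  have hL0 : 0 < L := by linarith
  have hL1 : 1 ≤ L := by linarith
  have hLp0 : ∀ n : ℕ, 0 < L ^ n := fun n => by positivity
  set l := Real.log L with hl
  have hl1 : 1 ≤ l := by
    rw [hl, Real.le_log_iff_exp_le hL0]
    have := Real.exp_one_lt_d9
    linarith
  have hLl : Real.exp l = L := Real.exp_log hL0
  obtain ⟨b', hb'⟩ : ∃ b', b' = C1 + ⌈2 * ((U : ℝ) + 2) * l⌉₊ := ⟨_, rfl⟩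
  have hb'1 : (b' : ℝ) ≤ C1 + (2 * ((U : ℝ) + 2) * l + 1) := by
    rw [hb']; push_cast
    have := Nat.ceil_lt_add_one (show 0 ≤ 2 * ((U : ℝ) + 2) * l by positivity)
    linarith
  have hb'2 : 2 * ((U : ℝ) + 2) * l ≤ b' := by
    rw [hb']; push_cast
    have := Nat.le_ceil (2 * ((U : ℝ) + 2) * l)
    have : (0 : ℝ) ≤ C1 := Nat.cast_nonneg _
    linarith
  have hpowL : ∀ n : ℕ, L ^ n = Real.exp (n * l) := by
    intro n
    rw [Real.exp_nat_mul, hLl]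
  refine ⟨b', by omega, ?_, ?_⟩
  · have h3 : (1 / 2 : ℝ) ^ b' ≤ 1 / L ^ (U + 1) := by
      rw [one_div_pow]
      apply one_div_le_one_div_of_le (hLp0 _)
      rw [hpowL]
      have h4 : (2 : ℝ) ^ b' = Real.exp (b' * Real.log 2) := by
        rw [Real.exp_nat_mul, Real.exp_log (by norm_num)]
      rw [h4]
      apply Real.exp_le_exp.2
      have h5 : (0.6 : ℝ) ≤ Real.log 2 := by have := Real.log_two_gt_d9; linarith
      have h6 : (2 * ((U : ℝ) + 2) * l) * 0.6 ≤ b' * Real.log 2 :=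
        mul_le_mul hb'2 h5 (by norm_num) (Nat.cast_nonneg _)
      have h7 : (0 : ℝ) ≤ U := Nat.cast_nonneg _
      push_cast
      nlinarith
    have h4 : 5 * (1 / L ^ (U + 1)) ≤ 1 / L ^ U := by
      rw [mul_one_div, div_le_div_iff₀ (hLp0 _) (hLp0 _), pow_succ]
      have := hLp0 U
      nlinarith
    linarith
  · have h3 : ((E * (C1 * b') + (U + 1) + 4 : ℕ) : ℝ) ≤ (k1 : ℝ) * l := by
      rw [hk1]
      push_cast
      have h4 : (E : ℝ) * (C1 * b') ≤ E * (C1 * (C1 + (2 * ((U : ℝ) + 2) * l + 1))) := by gcongr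
      have h5 : (E : ℝ) * (C1 * (C1 + (2 * ((U : ℝ) + 2) * l + 1))) ≤
          E * (C1 * ((C1 + 1 + 2 * ((U : ℝ) + 2)) * l)) := by
        have h6 : (C1 : ℝ) + (2 * ((U : ℝ) + 2) * l + 1) ≤ (C1 + 1 + 2 * ((U : ℝ) + 2)) * l := by
          have h7 : (0 : ℝ) ≤ C1 := Nat.cast_nonneg _
          nlinarith
        gcongr
      have h6 : ((U : ℝ) + 1) + 4 ≤ (((U : ℝ) + 1) + 4) * l := by
        have : (0 : ℝ) ≤ (U : ℝ) := Nat.cast_nonneg _
        nlinarith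
      calc (E : ℝ) * (C1 * b') + (U + 1) + 4 ≤ E * (C1 * ((C1 + 1 + 2 * ((U : ℝ) + 2)) * l)) + (((U : ℝ) + 1) + 4) * l := by
            linarith
        _ = _ := by ring
    rw [hpowL, Real.rpow_def_of_pos hX1, ← hLd]
    apply Real.exp_le_exp.2
    calc ((E * (C1 * b') + (U + 1) + 4 : ℕ) : ℝ) * l ≤ (k1 : ℝ) * l * l :=
          mul_le_mul_of_nonneg_right h3 (by linarith)
      _ = (6 * k1 * l ^ 2) / 6 := by ring
      _ ≤ L / 6 := by linarith
      _ = L * (1 / 6) := by ring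

theorem t1 (hT1M : S_T1M) (hHT : S_HT) : S_T1 := by
  classical
  intro U C
  obtain ⟨E1, hE1⟩ := hT1M (3 * U + 15) C
  obtain ⟨E2, hE2⟩ := hHT (U + 1) (U + 2)
  obtain ⟨C1, y0, hC1, hy0, hwin⟩ := one_windowz
  obtain ⟨E, hE⟩ : ∃ E, E = max E1 E2 + 1 := ⟨_, rfl⟩
  obtain ⟨B, X1, hX1⟩ := hE1 E (by omega)
  obtain ⟨X2, hX2⟩ := hE2 E (by omega)
  obtain ⟨X3, hX3⟩ := Vz_inv_small E
  obtain ⟨X4, hX4⟩ := choose_b U E C1
  obtain ⟨X5, hX5⟩ := eventually_atTop.1 (((evt_log_ge 10000).and (evt_log_ge ((y0 : ℝ) + 1))).and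
    (evt_log_pow (2 * C + U + 2) (1 / 2) (by norm_num)))
  refine ⟨B, max (max X1 X2) (max (max X3 X4) (max X5 1)), fun X hX m H hH1 hH2 => ?_⟩
  have g1 : X1 ≤ X := ((le_max_left _ _).trans (le_max_left _ _)).trans hX
  have g2 : X2 ≤ X := ((le_max_right _ _).trans (le_max_left _ _)).trans hX
  have g3 : X3 ≤ X := (((le_max_left _ _).trans (le_max_left _ _)).trans (le_max_right _ _)).trans hX
  have g4 : X4 ≤ X := (((le_max_right _ _).trans (le_max_left _ _)).trans (le_max_right _ _)).trans hX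
  have g5 : X5 ≤ X := (((le_max_left _ _).trans (le_max_right _ _)).trans (le_max_right _ _)).trans hX
  have g6 : 1 ≤ X := (((le_max_right _ _).trans (le_max_right _ _)).trans (le_max_right _ _)).trans hX
  have hM := hX1 X g1 m H hH1 hH2
  obtain ⟨Bk, hBk0, hBk, hgood⟩ := hX2 X g2
  have hV' := hX3 X g3
  obtain ⟨b, hb1, hb2, hb3⟩ := hX4 X g4
  obtain ⟨⟨hL, hLy⟩, hLS⟩ := hX5 X g5
  rw [← Real.sqrt_eq_rpow] at hLS
  obtain ⟨L, hLd⟩ : ∃ L, L = Real.log X := ⟨_, rfl⟩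
  rw [← hLd] at hM hBk hgood hV' hb2 hb3 hL hLy hLS hH1 hH2 ⊢
  obtain ⟨S, hS⟩ : ∃ S, S = √(X : ℝ) := ⟨_, rfl⟩
  rw [← hS] at hLS hH2
  obtain ⟨z, hz⟩ : ∃ z, z = ⌊L ^ E⌋₊ := ⟨_, rfl⟩
  rw [← hz] at hM hgood
  have hL0 : 0 < L := by linarith
  have hL1 : 1 ≤ L := by linarith
  have hLp0 : ∀ n : ℕ, 0 < L ^ n := fun n => by positivity
  have hLp : ∀ n : ℕ, 1 ≤ L ^ n := fun n => one_le_pow₀ hL1
  have hXr : (1 : ℝ) ≤ X := by exact_mod_cast g6
  have hX0' : (0 : ℝ) < X := by linarith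
  have hSS : S * S = X := by rw [hS]; exact Real.mul_self_sqrt hX0'.le
  have hS1 : 1 ≤ S := by rw [hS]; exact Real.one_le_sqrt.2 hXr
  have hS0 : 0 < S := by linarith
  -- z
  have hzle : (z : ℝ) ≤ L ^ E := by rw [hz]; exact Nat.floor_le (by positivity)
  have hLE : L ≤ L ^ E := le_self_pow₀ hL1 (by omega)
  have hzge : L ^ E - 1 ≤ z := by
    have := Nat.lt_floor_add_one (L ^ E)
    rw [← hz] at this
    linarith
  have hzy : y0 ≤ z := by
    have : (y0 : ℝ) ≤ z := by linarith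
    exact_mod_cast this
  have hz1 : 1 ≤ z := by omega
  have hV := hV' z hz1 hzle
  have hVpos := Vz_pos hz1
  have hVge : 1 / L ≤ Vz z := by
    rw [div_le_iff₀ hL0]
    have := mul_le_mul_of_nonneg_right hV hVpos.le
    rw [inv_mul_cancel₀ hVpos.ne'] at this
    linarith
  -- H
  have hHk : L ^ (E * (C1 * b) + (U + 1) + 4) ≤ (H : ℝ) := by
    refine hb3.trans (le_trans ?_ hH1)
    exact le_mul_of_one_le_right (by positivity) (hLp _)
  have hH0 : (0 : ℝ) < H := (hLp0 _).trans_le hHk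
  -- the exceptional sets
  obtain ⟨τ, hτ⟩ : ∃ τ, τ = (H : ℝ) / L ^ (U + 7) := ⟨_, rfl⟩
  have hτ0 : 0 < τ := by rw [hτ]; positivity
  have hbad : ∀ s : ℤ, (s = 1 ∨ s = -1) →
      (((Icc (-(X : ℤ)) X).filter (fun a => τ < |∑ n ∈ Ioc m (m + H), ff z (s * ((n : ℤ) ^ 2 + a))|)).card : ℝ) ≤
        X / L ^ (U + 1) := by
    intro s hs
    refine (cheb _ X _ τ hτ0 (hM s hs)).trans (le_of_eq ?_)
    have e1 : L ^ (3 * U + 15) = L ^ (U + 7) * L ^ (U + 7) * L ^ (U + 1) := by ring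
    rw [hτ, e1]
    field_simp
  obtain ⟨Bp, hBp⟩ : ∃ Bp, Bp = (Icc (-(X : ℤ)) X).filter
    (fun a => τ < |∑ n ∈ Ioc m (m + H), ff z (1 * ((n : ℤ) ^ 2 + a))|) := ⟨_, rfl⟩
  obtain ⟨Bm, hBm⟩ : ∃ Bm, Bm = (Icc (-(X : ℤ)) X).filter
    (fun a => τ < |∑ n ∈ Ioc m (m + H), ff z (-1 * ((n : ℤ) ^ 2 + a))|) := ⟨_, rfl⟩
  obtain ⟨Bn, hBn⟩ : ∃ Bn, Bn = (Icc (-(X : ℤ)) X).filter (fun a : ℤ => ∃ n : ℕ, vz a n ≤ 1) := ⟨_, rfl⟩
  have hBpc : (#Bp : ℝ) ≤ X / L ^ (U + 1) := by rw [hBp]; exact hbad 1 (Or.inl rfl)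
  have hBmc : (#Bm : ℝ) ≤ X / L ^ (U + 1) := by rw [hBm]; exact hbad (-1) (Or.inr rfl)
  have hBnc : (#Bn : ℝ) ≤ X / L ^ (U + 1) := by
    rw [hBn]
    refine (near_sqz X).trans ?_
    have h1 : ((Nat.sqrt X : ℕ) : ℝ) ≤ S := by
      rw [hS]
      apply Real.le_sqrt_of_sq_le
      exact_mod_cast Nat.sqrt_le' X
    rw [le_div_iff₀ (hLp0 _), ← hSS]
    calc 3 * (((Nat.sqrt X : ℕ) : ℝ) + 3) * L ^ (U + 1) ≤ 3 * (S + 3) * L ^ (U + 1) := by gcongr
      _ ≤ (L * S) * L ^ (U + 1) := by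
          apply mul_le_mul_of_nonneg_right _ (hLp0 _).le
          nlinarith
      _ = S * L ^ (U + 2) := by ring
      _ ≤ S * S := by
          apply mul_le_mul_of_nonneg_left _ hS0.le
          exact (pow_le_pow_right₀ hL1 (by omega)).trans hLS
  refine ⟨Bk ∪ Bp ∪ Bm ∪ Bn, ?_, ?_, ?_⟩
  · refine union_subset (union_subset (union_subset hBk0 ?_) ?_) ?_
    · rw [hBp]; exact filter_subset _ _
    · rw [hBm]; exact filter_subset _ _
    · rw [hBn]; exact filter_subset _ _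
  · have h1 : (#(Bk ∪ Bp ∪ Bm ∪ Bn) : ℝ) ≤ #Bk + #Bp + #Bm + #Bn := by
      have h2 := card_union_le (Bk ∪ Bp ∪ Bm) Bn
      have h3 := card_union_le (Bk ∪ Bp) Bm
      have h4 := card_union_le Bk Bp
      exact_mod_cast (by omega : #(Bk ∪ Bp ∪ Bm ∪ Bn) ≤ #Bk + #Bp + #Bm + #Bn)
    refine h1.trans ?_
    have h2 : 4 * (X / L ^ (U + 1)) ≤ X / L ^ U := by
      rw [mul_div_assoc', div_le_div_iff₀ (hLp0 _) (hLp0 _), pow_succ]
      have : 0 ≤ (X : ℝ) * L ^ U := by positivity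
      nlinarith
    linarith
  · intro a ha haB
    rw [mem_union, mem_union, mem_union, not_or, not_or, not_or] at haB
    obtain ⟨⟨⟨hb1', hb2'⟩, hb3'⟩, hb4'⟩ := haB
    have hvn : ∀ i, 2 ≤ vz a i := by
      intro i
      by_contra hcon
      apply hb4'
      rw [hBn, mem_filter]
      exact ⟨ha, i, by omega⟩
    refine ⟨fun n _ => hvn n, ?_⟩
    obtain ⟨-, h, hh0, hlim, hHPh⟩ := hgood a ha hb1'
    refine ⟨h, hh0, hlim, ?_⟩
    have hp1 : |∑ n ∈ Ioc m (m + H), ff z (1 * ((n : ℤ) ^ 2 + a))| ≤ τ := by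
      by_contra hcon
      push Not at hcon
      exact hb2' (by rw [hBp, mem_filter]; exact ⟨ha, hcon⟩)
    have hm1 : |∑ n ∈ Ioc m (m + H), ff z (-1 * ((n : ℤ) ^ 2 + a))| ≤ τ := by
      by_contra hcon
      push Not at hcon
      exact hb3' (by rw [hBm, mem_filter]; exact ⟨ha, hcon⟩)
    have hw := hwin b hb1 z hzy a m (m + H) (by omega) hvn
    have hlow := low_wz C X a m H L S hLd hL1 hS1 hSS (by
      calc 2 * L ^ (2 * C) ≤ L * L ^ (2 * C) := by gcongr; linarith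
        _ = L ^ (2 * C + 1) := by ring
        _ ≤ L ^ (2 * C + U + 2) := pow_le_pow_right₀ hL1 (by omega)
        _ ≤ S := hLS) ha hvn hH2
    have hfin := fin_K (U + 1) (E * (C1 * b)) L H (∑ i ∈ Ioc m (m + H), wt (vz a i)) (HP (-a) z) h
      (((Ioc m (m + H)).filter (fun i => (vz a i).Prime)).card : ℝ)
      (|∑ i ∈ Ioc m (m + H), ff z (1 * ((i : ℤ) ^ 2 + a))| + |∑ i ∈ Ioc m (m + H), ff z (-1 * ((i : ℤ) ^ 2 + a))|)
      ((z : ℝ) ^ (C1 * b)) ((1 / 2) ^ b) hL hH0 hlow (by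
        refine le_trans ?_ (HP_ge (-a) z)
        rw [← one_div_pow]
        exact pow_le_pow_left₀ (by positivity) hVge 2) hh0 (by
        refine hHPh.trans (le_of_eq ?_)
        ring) (by
        have e1 : L ^ (U + 7) = L ^ (U + 1 + 5) * L := by ring
        have e2 : τ = (H : ℝ) / L ^ (U + 1 + 5) / L := by rw [hτ, e1, div_div]
        have e3 : 2 * ((H : ℝ) / L ^ (U + 1 + 5) / L) ≤ (H : ℝ) / L ^ (U + 1 + 5) := by
          rw [mul_div_assoc', div_le_iff₀ hL0]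
          have : 0 ≤ (H : ℝ) / L ^ (U + 1 + 5) := by positivity
          nlinarith
        linarith) (by positivity) (by
        rw [pow_mul L E]
        exact pow_le_pow_left₀ (Nat.cast_nonneg _) hzle _) hHk hw
    have hM0 : 0 ≤ h * ∑ i ∈ Ioc m (m + H), wt (vz a i) :=
      mul_nonneg hh0.le (sum_nonneg fun i _ => wt_nonneg _)
    calc |(P a m H : ℝ) - h * Wt a m H| ≤ (4 * (1 / 2) ^ b + 1 / L ^ (U + 1)) * (h * ∑ i ∈ Ioc m (m + H), wt (vz a i)) := hfin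
      _ ≤ (1 / L ^ U) * (h * ∑ i ∈ Ioc m (m + H), wt (vz a i)) := mul_le_mul_of_nonneg_right hb2 hM0
      _ = _ := by
          show (1 / L ^ U) * (h * Wt a m H) = _
          ring

end Run7.h385.CR
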