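import Pool.Agent.Run7.h373.CR.Fi
import Pool.Agent.Run7.h373.CR.Sia
import Pool.Agent.Run7.h373.CR.Lz
import Pool.Agent.Run7.h373.CR.Win
import Pool.Agent.Run7.h292.CR.SIC
import Pool.Agent.Run7.h292.CR.FD
import Pool.Agent.Run7.h292.CR.MOC
import Pool.Agent.Run7.h545.CR.DPL
import Pool.Agent.Run7.h437.CR.PW
import Pool.Agent.Run7.h437.CR.LZF
import Pool.Agent.Run7.h18.CR.Lup
import Pool.Agent.Run7.h18.CR.Chr
import Pool.Agent.Run7.h385.CR.MomC
import Pool.Agent.Run7.h385.CR.WinB

/-!
# Project CR: the first application, all hypotheses but HT discharged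
-/

set_option autoImplicit false

namespace Run7.h385.CR

open Pool.Agent.Q236.CR Run7.h757.CR

/-- primes minus their sieve model with additive characters in almost all short intervals -/
theorem fi_all : S_FI :=
  Run7.h373.CR.fi (Run7.h373.CR.sia (Run7.h292.CR.sic (Run7.h545.CR.dpl (Run7.h437.CR.pw Run7.h18.CR.chr
    (Run7.h292.CR.moc (Run7.h437.CR.lzf Run7.h18.CR.lup))) Run7.h18.CR.chr Run7.h292.CR.fd) Run7.h373.CR.win))
    Run7.h373.CR.lz

theorem t1m_all : S_T1M := t1m fi_all

theorem t1_of (hHT : S_HT) : S_T1 := t1 t1m_all hHT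

end Run7.h385.CR
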