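import Mathlib
import Pool.Agent.H469R2.NK.KL

/-!
# Finite Parseval formula on the circle
-/

set_option autoImplicit false

namespace Run7.h385.CR

open Finset MeasureTheory
open Pool.Agent.H469R2.NK (e norm_e e_add conj_e e_zero)

lemma e_cont : Continuous e := by
  unfold e; fun_prop

lemma e_int (n : ℤ) : e (n : ℝ) = 1 := by
  unfold e
  have : (((2 * Real.pi * (n : ℝ) : ℝ) : ℂ) * Complex.I) = n * (2 * Real.pi * Complex.I) := by
    push_cast; ring
  rw [this]
  exact Complex.exp_int_mul_two_pi_mul_I n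

lemma e_add_int (x : ℝ) (n : ℤ) : e (x + n) = e x := by
  rw [e_add, e_int, mul_one]

lemma int_e (n : ℤ) : ∫ β in (0 : ℝ)..1, e ((n : ℝ) * β) = if n = 0 then 1 else 0 := by
  split_ifs with h
  · subst h
    simp [e_zero]
  · have hc : ((2 * Real.pi * n : ℝ) : ℂ) * Complex.I ≠ 0 := by
      refine mul_ne_zero ?_ Complex.I_ne_zero
      have : (2 * Real.pi * (n : ℝ)) ≠ 0 := by
        have : (n : ℝ) ≠ 0 := by exact_mod_cast h
        have := Real.pi_ne_zero
        positivity
      exact_mod_cast this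
    have h1 : ∀ β : ℝ, e ((n : ℝ) * β) = Complex.exp ((((2 * Real.pi * n : ℝ) : ℂ) * Complex.I) * β) := by
      intro β
      unfold e
      congr 1
      push_cast
      ring
    simp_rw [h1]
    rw [integral_exp_mul_complex hc]
    have e2 : (((2 * Real.pi * n : ℝ) : ℂ) * Complex.I) * ((1 : ℝ) : ℂ) = n * (2 * Real.pi * Complex.I) := by
      push_cast; ring
    rw [e2, Complex.exp_int_mul_two_pi_mul_I]
    simp

/-- Parseval -/
theorem pars {ι : Type*} (s : Finset ι) (f : ι → ℤ) (c : ι → ℂ) (T : Finset ℤ)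
    (hT : ∀ i ∈ s, f i ∈ T) :
    ∫ β in (0 : ℝ)..1, ‖∑ i ∈ s, c i * e ((f i : ℝ) * β)‖ ^ 2 =
      ∑ m ∈ T, ‖∑ i ∈ s.filter (fun i => f i = m), c i‖ ^ 2 := by
  classical
  have h1 : ((∫ β in (0 : ℝ)..1, ‖∑ i ∈ s, c i * e ((f i : ℝ) * β)‖ ^ 2 : ℝ) : ℂ) =
      ∫ β in (0 : ℝ)..1, ∑ i ∈ s, ∑ j ∈ s, (c i * (starRingEnd ℂ) (c j)) *
        e (((f i - f j : ℤ) : ℝ) * β) := by
    rw [← intervalIntegral.integral_ofReal]
    refine intervalIntegral.integral_congr fun β _ => ?_
    have h2 : (((‖∑ i ∈ s, c i * e ((f i : ℝ) * β)‖ ^ 2 : ℝ)) : ℂ) =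
        (∑ i ∈ s, c i * e ((f i : ℝ) * β)) * (starRingEnd ℂ) (∑ i ∈ s, c i * e ((f i : ℝ) * β)) := by
      rw [Complex.mul_conj']; push_cast; rfl
    rw [h2, map_sum, Finset.sum_mul_sum]
    refine Finset.sum_congr rfl fun i _ => Finset.sum_congr rfl fun j _ => ?_
    rw [map_mul, conj_e]
    have : e (((f i - f j : ℤ) : ℝ) * β) = e ((f i : ℝ) * β) * e (-((f j : ℝ) * β)) := by
      rw [← e_add]; congr 1; push_cast; ring
    rw [this]
    ring
  have hcont : ∀ n : ℤ, Continuous fun β : ℝ => e ((n : ℝ) * β) := fun n =>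
    e_cont.comp (by fun_prop)
  have h3 : ∫ β in (0 : ℝ)..1, ∑ i ∈ s, ∑ j ∈ s, (c i * (starRingEnd ℂ) (c j)) *
        e (((f i - f j : ℤ) : ℝ) * β) =
      ∑ i ∈ s, ∑ j ∈ s, (c i * (starRingEnd ℂ) (c j)) * (if f i = f j then 1 else 0) := by
    rw [intervalIntegral.integral_finsetSum]
    · refine Finset.sum_congr rfl fun i _ => ?_
      rw [intervalIntegral.integral_finsetSum]
      · refine Finset.sum_congr rfl fun j _ => ?_
        rw [intervalIntegral.integral_const_mul, int_e]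
        congr 1
        simp only [sub_eq_zero]
      · intro j _
        exact ((hcont _).const_smul (c i * (starRingEnd ℂ) (c j))).intervalIntegrable _ _
    · intro i _
      refine Continuous.intervalIntegrable ?_ _ _
      refine continuous_finsetSum _ fun j _ => ?_
      exact (hcont _).const_smul (c i * (starRingEnd ℂ) (c j))
  have h4 : ∑ i ∈ s, ∑ j ∈ s, (c i * (starRingEnd ℂ) (c j)) * (if f i = f j then (1 : ℂ) else 0) =
      ((∑ m ∈ T, ‖∑ i ∈ s.filter (fun i => f i = m), c i‖ ^ 2 : ℝ) : ℂ) := by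
    have e1 : ∀ m ∈ T, ((‖∑ i ∈ s.filter (fun i => f i = m), c i‖ ^ 2 : ℝ) : ℂ) =
        ∑ i ∈ s, if f i = m then ∑ j ∈ s, (c i * (starRingEnd ℂ) (c j)) *
          (if f i = f j then (1 : ℂ) else 0) else 0 := by
      intro m _
      have h2 : (((‖∑ i ∈ s.filter (fun i => f i = m), c i‖ ^ 2 : ℝ)) : ℂ) =
          (∑ i ∈ s.filter (fun i => f i = m), c i) *
            (starRingEnd ℂ) (∑ i ∈ s.filter (fun i => f i = m), c i) := by
        rw [Complex.mul_conj']; push_cast; rfl
      rw [h2, map_sum, Finset.sum_mul_sum, Finset.sum_filter]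
      refine Finset.sum_congr rfl fun i _ => ?_
      split_ifs with h
      · rw [Finset.sum_filter]
        refine Finset.sum_congr rfl fun j _ => ?_
        by_cases hj : f j = m
        · rw [if_pos hj, if_pos (by rw [h, hj]), mul_one]
        · rw [if_neg hj, if_neg (by rw [h]; exact fun hh => hj hh.symm), mul_zero]
      · rfl
    rw [Complex.ofReal_sum]
    rw [Finset.sum_congr rfl e1, Finset.sum_comm (s := T)]
    refine Finset.sum_congr rfl fun i hi => ?_
    rw [Finset.sum_ite_eq, if_pos (hT i hi)]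
  exact_mod_cast h1.trans (h3.trans h4)

/-- Bessel: the sum of the squares of the coefficients over any finite set of frequencies -/
theorem bess {ι : Type*} (s : Finset ι) (f : ι → ℤ) (c : ι → ℂ) (T : Finset ℤ) :
    ∑ m ∈ T, ‖∑ i ∈ s.filter (fun i => f i = m), c i‖ ^ 2 ≤
      ∫ β in (0 : ℝ)..1, ‖∑ i ∈ s, c i * e ((f i : ℝ) * β)‖ ^ 2 := by
  classical
  rw [pars s f c (T ∪ s.image f) (fun i hi => mem_union_right _ (mem_image_of_mem _ hi))]
  exact sum_le_sum_of_subset_of_nonneg subset_union_left fun _ _ _ => by positivity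

end Run7.h385.CR
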