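import Pool.Agent.Run7.h757.CR.App
import Pool.Agent.Run7.h385.CR.Par

/-!
# Project CR, piece GAL: Gallagher's lemma
-/

set_option autoImplicit false

namespace Run7.h385.CR

open Finset MeasureTheory
open Pool.Agent.H469R2.NK (e norm_e e_add conj_e e_zero)
open Run7.h757.CR

lemma sum_sq_shift (c : ℝ) (N : ℕ) : ∑ t ∈ Icc 1 N, (c - (t : ℝ)) ^ 2 =
    N * c ^ 2 - c * N * (N + 1) + N * (N + 1) * (2 * N + 1) / 6 := by
  induction N with
  | zero => simp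
  | succ N ih =>
    rw [sum_Icc_succ_top (by omega), ih]
    push_cast
    ring

lemma re_e (x : ℝ) : (e x).re = Real.cos (2 * Real.pi * x) := by
  unfold e
  rw [Complex.exp_ofReal_mul_I_re]

/-- the Dirichlet kernel is large near zero -/
lemma dir_lower {Y : ℕ} (hY : 1 ≤ Y) {β : ℝ} (h : |β| ≤ 1 / (2 * (Y : ℝ))) :
    (Y : ℝ) ^ 2 / 3 ≤ ‖∑ t ∈ Icc 1 Y, e (-((t : ℝ) * β))‖ ^ 2 := by
  have hY0 : (0 : ℝ) < Y := by exact_mod_cast hY
  have hY1 : (1 : ℝ) ≤ Y := by exact_mod_cast hY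
  set c : ℝ := ((Y : ℝ) + 1) / 2 with hc
  have h1 : ‖∑ t ∈ Icc 1 Y, e (-((t : ℝ) * β))‖ = ‖∑ t ∈ Icc 1 Y, e ((c - t) * β)‖ := by
    have : ∀ t ∈ Icc 1 Y, e ((c - (t : ℝ)) * β) = e (c * β) * e (-((t : ℝ) * β)) := by
      intro t _
      rw [← e_add]; congr 1; ring
    rw [sum_congr rfl this, ← mul_sum, norm_mul, norm_e, one_mul]
  have h2 : (∑ t ∈ Icc 1 Y, e ((c - (t : ℝ)) * β)).re = ∑ t ∈ Icc 1 Y, Real.cos (2 * Real.pi * ((c - t) * β)) := by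
    rw [Complex.re_sum]
    exact sum_congr rfl fun t _ => re_e _
  have h3 : ∑ t ∈ Icc 1 Y, (1 - (2 * Real.pi * ((c - (t : ℝ)) * β)) ^ 2 / 2) ≤
      ∑ t ∈ Icc 1 Y, Real.cos (2 * Real.pi * ((c - t) * β)) :=
    sum_le_sum fun t _ => Real.one_sub_sq_div_two_le_cos
  have h4 : ∑ t ∈ Icc 1 Y, (1 - (2 * Real.pi * ((c - (t : ℝ)) * β)) ^ 2 / 2) =
      Y - 2 * Real.pi ^ 2 * β ^ 2 * (Y * (Y ^ 2 - 1) / 12) := by
    have e1 : ∀ t ∈ Icc 1 Y, (1 - (2 * Real.pi * ((c - (t : ℝ)) * β)) ^ 2 / 2) =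
        1 - 2 * Real.pi ^ 2 * β ^ 2 * (c - (t : ℝ)) ^ 2 := fun t _ => by ring
    rw [sum_congr rfl e1, sum_sub_distrib, ← mul_sum, sum_sq_shift]
    simp only [sum_const, Nat.card_Icc, add_tsub_cancel_right, nsmul_eq_mul, mul_one]
    rw [hc]
    ring
  have hβ : β ^ 2 ≤ 1 / (4 * (Y : ℝ) ^ 2) := by
    rw [← sq_abs]
    calc |β| ^ 2 ≤ (1 / (2 * (Y : ℝ))) ^ 2 := by gcongr
      _ = _ := by field_simp; norm_num
  have hpi : Real.pi ^ 2 ≤ 9.93 := by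
    have := Real.pi_lt_d2
    have := Real.pi_pos
    nlinarith
  have h5 : 2 * Real.pi ^ 2 * β ^ 2 * (Y * (Y ^ 2 - 1) / 12) ≤ 0.42 * Y := by
    have hYY : (0 : ℝ) ≤ Y * (Y ^ 2 - 1) / 12 := by
      have : (1 : ℝ) ≤ (Y : ℝ) ^ 2 := by nlinarith
      apply div_nonneg _ (by norm_num)
      apply mul_nonneg hY0.le
      linarith
    calc 2 * Real.pi ^ 2 * β ^ 2 * (Y * (Y ^ 2 - 1) / 12)
        ≤ 2 * 9.93 * (1 / (4 * (Y : ℝ) ^ 2)) * (Y * (Y ^ 2 - 1) / 12) := by gcongr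
      _ ≤ 2 * 9.93 * (1 / (4 * (Y : ℝ) ^ 2)) * (Y * Y ^ 2 / 12) := by
          gcongr
          linarith
      _ = (9.93 / 24) * Y := by field_simp; norm_num
      _ ≤ 0.42 * Y := by
          apply mul_le_mul_of_nonneg_right _ hY0.le
          norm_num
  have h6 : 0.58 * (Y : ℝ) ≤ ‖∑ t ∈ Icc 1 Y, e ((c - t) * β)‖ := by
    have := Complex.re_le_norm (∑ t ∈ Icc 1 Y, e ((c - (t : ℝ)) * β))
    rw [h2] at this
    linarith
  rw [h1]
  calc (Y : ℝ) ^ 2 / 3 ≤ (0.58 * Y) ^ 2 := by nlinarith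
    _ ≤ _ := by gcongr

theorem gal : S_GAL := by
  intro K Y c hY
  have hY0 : (0 : ℝ) < Y := by exact_mod_cast hY
  have hY1 : (1 : ℝ) ≤ Y := by exact_mod_cast hY
  set δ : ℝ := 1 / (2 * (Y : ℝ)) with hδ
  have hδ0 : 0 < δ := by positivity
  have hδ2 : δ ≤ 1 / 2 := by
    rw [hδ]
    apply one_div_le_one_div_of_le (by norm_num)
    linarith
  set F : ℝ → ℂ := fun β => ∑ k ∈ Icc 1 K, c k * e ((k : ℝ) * β) with hF
  set D : ℝ → ℂ := fun β => ∑ t ∈ Icc 1 Y, e (-((t : ℝ) * β)) with hD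
  have hFc : Continuous F := by
    refine continuous_finsetSum _ fun k _ => ?_
    exact (e_cont.comp (by fun_prop : Continuous fun β : ℝ => (k : ℝ) * β)).const_smul (c k)
  have hDc : Continuous D := by
    refine continuous_finsetSum _ fun t _ => ?_
    exact e_cont.comp (by fun_prop : Continuous fun β : ℝ => -((t : ℝ) * β))
  set G : ℝ → ℂ := fun β => ∑ p ∈ Icc 1 K ×ˢ Icc 1 Y, c p.1 * e ((((p.1 : ℤ) - p.2 : ℤ) : ℝ) * β) with hG
  have hGFD : ∀ β, G β = F β * D β := by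
    intro β
    simp only [hG, hF, hD]
    rw [sum_mul_sum, sum_product]
    refine sum_congr rfl fun k _ => sum_congr rfl fun t _ => ?_
    rw [mul_assoc, ← e_add]
    congr 2
    push_cast
    ring
  have hGc : Continuous G := by
    have : G = fun β => F β * D β := funext hGFD
    rw [this]
    exact hFc.mul hDc
  have hper : Function.Periodic G 1 := by
    intro β
    simp only [hG]
    refine sum_congr rfl fun p _ => ?_
    have : (((p.1 : ℤ) - p.2 : ℤ) : ℝ) * (β + 1) = (((p.1 : ℤ) - p.2 : ℤ) : ℝ) * β + (((p.1 : ℤ) - p.2 : ℤ) : ℝ) := by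
      ring
    rw [this, e_add_int]
  -- the integral over the arc
  have h1 : ∫ β in (-δ)..δ, ‖F β‖ ^ 2 ≤ ∫ β in (-δ)..δ, 3 / (Y : ℝ) ^ 2 * ‖G β‖ ^ 2 := by
    refine intervalIntegral.integral_mono_on (by linarith) ?_ ?_ ?_
    · exact (hFc.norm.pow 2).intervalIntegrable _ _
    · have hc2 : Continuous fun β => 3 / (Y : ℝ) ^ 2 * ‖G β‖ ^ 2 := by fun_prop
      exact hc2.intervalIntegrable _ _
    · intro β hβ
      have hb : |β| ≤ 1 / (2 * (Y : ℝ)) := abs_le.2 hβ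
      have h2 := dir_lower hY hb
      rw [hGFD, norm_mul, mul_pow]
      have h3 : (0 : ℝ) ≤ ‖F β‖ ^ 2 := by positivity
      have h4 : 1 ≤ 3 / (Y : ℝ) ^ 2 * ‖D β‖ ^ 2 := by
        rw [div_mul_eq_mul_div, le_div_iff₀ (by positivity)]
        simp only [hD]
        linarith
      calc ‖F β‖ ^ 2 = ‖F β‖ ^ 2 * 1 := by ring
        _ ≤ ‖F β‖ ^ 2 * (3 / (Y : ℝ) ^ 2 * ‖D β‖ ^ 2) := by gcongr
        _ = _ := by ring
  have h2 : ∫ β in (-δ)..δ, ‖G β‖ ^ 2 ≤ ∫ β in (-(1 / 2 : ℝ))..(1 / 2), ‖G β‖ ^ 2 := by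
    have hi : IntervalIntegrable (fun β => ‖G β‖ ^ 2) volume (-(1 / 2 : ℝ)) (1 / 2) :=
      (hGc.norm.pow 2).intervalIntegrable _ _
    refine intervalIntegral.integral_mono_interval (by linarith) (by linarith) hδ2
      (Filter.Eventually.of_forall fun v => by simp only [Pi.zero_apply]; positivity) hi
  have h3 : ∫ β in (-(1 / 2 : ℝ))..(1 / 2), ‖G β‖ ^ 2 = ∫ β in (0 : ℝ)..1, ‖G β‖ ^ 2 := by
    have hp : Function.Periodic (fun β => ‖G β‖ ^ 2) 1 := by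
      intro β
      show ‖G (β + 1)‖ ^ 2 = ‖G β‖ ^ 2
      rw [hper β]
    have := hp.intervalIntegral_add_eq (-(1 / 2 : ℝ)) 0
    have e1 : (-(1 / 2 : ℝ)) + 1 = 1 / 2 := by norm_num
    rw [e1, zero_add] at this
    exact this
  have h4 := pars (Icc 1 K ×ˢ Icc 1 Y) (fun p => (p.1 : ℤ) - p.2) (fun p => c p.1) (Icc (-(Y : ℤ)) K) (by
    intro p hp
    rw [mem_product, mem_Icc, mem_Icc] at hp
    rw [mem_Icc]
    omega)
  have h5 : ∀ m : ℤ, ∑ p ∈ (Icc 1 K ×ˢ Icc 1 Y).filter (fun p => ((p.1 : ℤ) - p.2) = m), c p.1 =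
      ∑ k ∈ (Icc 1 K).filter (fun k : ℕ => m < k ∧ (k : ℤ) ≤ m + Y), c k := by
    intro m
    refine sum_bij' (fun p _ => p.1) (fun k _ => (k, ((k : ℤ) - m).toNat)) ?_ ?_ ?_ ?_ ?_
    · intro p hp
      simp only [mem_filter, mem_product, mem_Icc] at hp ⊢
      omega
    · intro k hk
      simp only [mem_filter, mem_product, mem_Icc] at hk ⊢
      omega
    · intro p hp
      simp only [mem_filter, mem_product, mem_Icc] at hp
      ext
      · rfl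
      · simp only; omega
    · intro k _
      rfl
    · intro p _
      rfl
  simp only [h5] at h4
  calc ∫ β in (-δ)..δ, ‖F β‖ ^ 2 ≤ ∫ β in (-δ)..δ, 3 / (Y : ℝ) ^ 2 * ‖G β‖ ^ 2 := h1
    _ = 3 / (Y : ℝ) ^ 2 * ∫ β in (-δ)..δ, ‖G β‖ ^ 2 := by
        rw [intervalIntegral.integral_const_mul]
    _ ≤ 3 / (Y : ℝ) ^ 2 * ∫ β in (0 : ℝ)..1, ‖G β‖ ^ 2 := by
        rw [← h3]; gcongr
    _ = _ := by rw [← h4]

end Run7.h385.CR
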