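import Pool.Agent.Run7.h757.CR.App
import Pool.Agent.Helper170.Weyl
import Pool.Agent.H807R2.Dav1

/-!
# Project CR, piece WEY: Weyl's inequality for squares in a window
-/

set_option autoImplicit false

namespace Run7.h385.CR

open Finset
open Pool.Agent.H469R2.NK (e norm_e e_add conj_e)
open Pool.Agent.H807R2.Dav (ee KK geo_bound KK_nonneg vino)
open Run7.h757.CR

lemma ee_eq_e (x : ℝ) : ee x = e x := by
  rw [Pool.Agent.H807R2.Dav.ee_eq]; rfl

lemma diff_sum (α : ℝ) (m l M : ℕ) (H : ℝ) (hM : (M : ℝ) ≤ H) :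
    ‖∑ n ∈ range M, e (α * ((m + 1 + (n + l) : ℕ) : ℝ) ^ 2) *
      (starRingEnd ℂ) (e (α * ((m + 1 + n : ℕ) : ℝ) ^ 2))‖ ≤ KK H (0 + ((2 * l : ℕ) : ℝ) * α) := by
  have h1 : ∀ n ∈ range M, e (α * ((m + 1 + (n + l) : ℕ) : ℝ) ^ 2) *
      (starRingEnd ℂ) (e (α * ((m + 1 + n : ℕ) : ℝ) ^ 2)) =
      e (α * (l ^ 2 + 2 * l * (m + 1))) * ee (n * (((2 * l : ℕ) : ℝ) * α)) := by
    intro n _
    rw [ee_eq_e, conj_e, ← e_add, ← e_add]
    congr 1
    push_cast
    ring
  rw [sum_congr rfl h1, ← mul_sum, norm_mul, norm_e, one_mul, zero_add, range_eq_Ico]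
  exact geo_bound 0 M (Nat.zero_le _) (by simpa using hM) _

theorem wey : S_WEY := by
  refine ⟨156, by norm_num, ?_⟩
  intro m H q a α hH hq hcop hα
  have hq0 : (0 : ℝ) < q := by exact_mod_cast hq
  have hq1 : (1 : ℝ) ≤ q := by exact_mod_cast hq
  have hlq : 0 ≤ Real.log q := Real.log_nonneg hq1
  have hH0 : (0 : ℝ) < H := by exact_mod_cast hH
  have e1 : ∑ n ∈ Ioc m (m + H), e (α * (n : ℝ) ^ 2) =
      ∑ n ∈ range H, e (α * ((m + 1 + n : ℕ) : ℝ) ^ 2) := by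
    have : Ioc m (m + H) = Ico (m + 1) (m + 1 + H) := by
      ext x; simp only [mem_Ioc, mem_Ico]; omega
    rw [this, sum_Ico_eq_sum_range]
    simp
  rw [e1]
  have hv := Pool.Agent.Helper170.Weyl.vdc (fun n => e (α * ((m + 1 + n : ℕ) : ℝ) ^ 2))
    (fun n => norm_e _) H
  refine hv.trans ?_
  have h2 : ∑ l ∈ Ico 1 H, ‖∑ n ∈ range (H - l), e (α * ((m + 1 + (n + l) : ℕ) : ℝ) ^ 2) *
      (starRingEnd ℂ) (e (α * ((m + 1 + n : ℕ) : ℝ) ^ 2))‖ ≤
      (((2 * H : ℕ) : ℝ) / q + 1) * (39 * (H : ℝ) + 3 * q * (1 + Real.log q)) := by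
    calc _ ≤ ∑ l ∈ Ico 1 H, KK H (0 + ((2 * l : ℕ) : ℝ) * α) := by
          refine sum_le_sum fun l _ => diff_sum α m l (H - l) H ?_
          exact_mod_cast Nat.sub_le _ _
      _ = ∑ k ∈ ((Ico 1 H).image (fun l : ℕ => 2 * l) : Finset ℕ), KK H (0 + ((k : ℕ) : ℝ) * α) := by
          rw [sum_image]
          intro x _ y _ hxy
          simp only at hxy
          omega
      _ ≤ ∑ k ∈ range (2 * H), KK H (0 + (k : ℝ) * α) := by
          apply sum_le_sum_of_subset_of_nonneg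
          · intro k hk
            obtain ⟨l, hl, rfl⟩ := mem_image.1 hk
            rw [mem_Ico] at hl
            rw [mem_range]
            omega
          · intro k _ _
            exact KK_nonneg hH0.le _
      _ ≤ _ := vino hq hcop hα hH0.le 0 (2 * H)
  have h3 : (H : ℝ) + 2 * ((((2 * H : ℕ) : ℝ) / q + 1) * (39 * (H : ℝ) + 3 * q * (1 + Real.log q))) =
      156 * ((H : ℝ) ^ 2 / q) + H * (79 + 12 * (1 + Real.log q)) + 6 * q * (1 + Real.log q) := by
    push_cast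
    field_simp
    ring
  calc _ ≤ (H : ℝ) + 2 * ((((2 * H : ℕ) : ℝ) / q + 1) * (39 * (H : ℝ) + 3 * q * (1 + Real.log q))) := by
        linarith
    _ ≤ _ := by
        rw [h3]
        have t1 : 0 ≤ (H : ℝ) ^ 2 / q := by positivity
        have t2 : 156 * ((H : ℝ) ^ 2 / q) ≤ 156 * ((H : ℝ) ^ 2 / q) * (1 + Real.log q) := by
          nlinarith
        have t3 : (H : ℝ) * (79 + 12 * (1 + Real.log q)) ≤ 156 * H * (1 + Real.log q) := by
          nlinarith
        have t4 : 6 * (q : ℝ) * (1 + Real.log q) ≤ 156 * q * (1 + Real.log q) := by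
          nlinarith
        nlinarith

end Run7.h385.CR
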