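import Pool.Agent.Run7.h757.CR.App
import Pool.Agent.Run7.h385.CR.Gal
import Pool.Agent.Run7.h385.CR.Wey

/-!
# Project CR, piece T1M: the circle method
-/

set_option autoImplicit false

namespace Run7.h385.CR

open Finset MeasureTheory
open Pool.Agent.H469R2.NK (e norm_e e_add conj_e e_zero)
open Run7.h757.CR

/-- the exponential sum of `g` on `[1, K]` -/
noncomputable def FF (g : ℤ → ℝ) (K : ℕ) (α : ℝ) : ℂ := ∑ k ∈ Icc 1 K, (g (k : ℤ) : ℂ) * e ((k : ℝ) * α)

/-- the exponential sum of the squares in a window -/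
noncomputable def WW (m H : ℕ) (α : ℝ) : ℂ := ∑ n ∈ Ioc m (m + H), e (α * (n : ℝ) ^ 2)

lemma FF_cont (g : ℤ → ℝ) (K : ℕ) : Continuous (FF g K) := by
  unfold FF
  refine continuous_finsetSum _ fun k _ => ?_
  exact (e_cont.comp (by fun_prop : Continuous fun β : ℝ => (k : ℝ) * β)).const_smul ((g (k : ℤ) : ℂ))

lemma WW_cont (m H : ℕ) : Continuous (WW m H) := by
  unfold WW
  refine continuous_finsetSum _ fun n _ => ?_
  exact e_cont.comp (by fun_prop : Continuous fun β : ℝ => β * (n : ℝ) ^ 2)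

lemma WW_le (m H : ℕ) (α : ℝ) : ‖WW m H α‖ ≤ H := by
  unfold WW
  refine (norm_sum_le _ _).trans ?_
  simp [norm_e]

lemma WW_neg (m H : ℕ) (α : ℝ) : ‖WW m H (-α)‖ = ‖WW m H α‖ := by
  have : WW m H (-α) = (starRingEnd ℂ) (WW m H α) := by
    unfold WW
    rw [map_sum]
    refine sum_congr rfl fun n _ => ?_
    rw [conj_e]; congr 1; ring
  rw [this, RCLike.norm_conj]

/-- the second moment over `a` is bounded by an integral over the circle -/
theorem circle (g : ℤ → ℝ) (hg : ∀ v, v ≤ 0 → g v = 0) (X K m H : ℕ) (s : ℤ) (hs : s = 1 ∨ s = -1)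
    (hK : ∀ a ∈ Icc (-(X : ℤ)) X, ∀ n ∈ Ioc m (m + H), s * ((n : ℤ) ^ 2 + a) ≤ K) :
    ∑ a ∈ Icc (-(X : ℤ)) X, (∑ n ∈ Ioc m (m + H), g (s * ((n : ℤ) ^ 2 + a))) ^ 2 ≤
      ∫ α in (0 : ℝ)..1, ‖FF g K α‖ ^ 2 * ‖WW m H α‖ ^ 2 := by
  have hss : s * s = 1 := by rcases hs with h | h <;> rw [h] <;> norm_num
  have h1 := bess (Icc 1 K ×ˢ Ioc m (m + H)) (fun p => (p.1 : ℤ) - s * (p.2 : ℤ) ^ 2)
    (fun p => ((g (p.1 : ℤ) : ℝ) : ℂ)) (Icc (-(X : ℤ)) X)
  have h2 : ∀ α : ℝ, ‖∑ p ∈ Icc 1 K ×ˢ Ioc m (m + H), ((g (p.1 : ℤ) : ℝ) : ℂ) *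
      e ((((p.1 : ℤ) - s * (p.2 : ℤ) ^ 2 : ℤ) : ℝ) * α)‖ ^ 2 = ‖FF g K α‖ ^ 2 * ‖WW m H α‖ ^ 2 := by
    intro α
    have e1 : ∑ p ∈ Icc 1 K ×ˢ Ioc m (m + H), ((g (p.1 : ℤ) : ℝ) : ℂ) *
      e ((((p.1 : ℤ) - s * (p.2 : ℤ) ^ 2 : ℤ) : ℝ) * α) = FF g K α * WW m H (-(s : ℝ) * α) := by
      unfold FF WW
      rw [sum_mul_sum, sum_product]
      refine sum_congr rfl fun k _ => sum_congr rfl fun n _ => ?_
      rw [mul_assoc, ← e_add]
      congr 2
      push_cast
      ring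
    rw [e1, norm_mul, mul_pow]
    congr 2
    rcases hs with h | h
    · rw [h]
      have : -((1 : ℤ) : ℝ) * α = -α := by push_cast; ring
      rw [this, WW_neg]
    · rw [h]
      have : -((-1 : ℤ) : ℝ) * α = α := by push_cast; ring
      rw [this]
  simp only [h2] at h1
  refine le_trans (le_of_eq ?_) h1
  refine sum_bij' (fun a _ => s * a) (fun a _ => s * a) ?_ ?_ ?_ ?_ ?_
  · intro a ha
    rw [mem_Icc] at ha ⊢
    rcases hs with h | h <;> rw [h] <;> constructor <;> linarith [ha.1, ha.2]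
  · intro a ha
    rw [mem_Icc] at ha ⊢
    rcases hs with h | h <;> rw [h] <;> constructor <;> linarith [ha.1, ha.2]
  · intro a _
    rw [← mul_assoc, hss, one_mul]
  · intro a _
    rw [← mul_assoc, hss, one_mul]
  · intro a ha
    have h3 : ∑ p ∈ (Icc 1 K ×ˢ Ioc m (m + H)).filter (fun p => (p.1 : ℤ) - s * (p.2 : ℤ) ^ 2 = s * a),
        ((g (p.1 : ℤ) : ℝ) : ℂ) = ((∑ n ∈ Ioc m (m + H), g (s * ((n : ℤ) ^ 2 + a)) : ℝ) : ℂ) := by
      have e1 : ∑ n ∈ Ioc m (m + H), g (s * ((n : ℤ) ^ 2 + a)) =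
          ∑ n ∈ (Ioc m (m + H)).filter (fun n : ℕ => 1 ≤ s * ((n : ℤ) ^ 2 + a)), g (s * ((n : ℤ) ^ 2 + a)) := by
        rw [sum_filter]
        refine sum_congr rfl fun n _ => ?_
        split_ifs with h
        · rfl
        · exact hg _ (by omega)
      rw [e1]
      push_cast
      refine sum_bij' (fun p _ => p.2) (fun n _ => ((s * ((n : ℤ) ^ 2 + a)).toNat, n)) ?_ ?_ ?_ ?_ ?_
      · intro p hp
        simp only [mem_filter, mem_product, mem_Icc] at hp ⊢
        refine ⟨hp.1.2, ?_⟩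
        have : s * ((p.2 : ℤ) ^ 2 + a) = p.1 := by linarith [hp.2, mul_add s ((p.2 : ℤ) ^ 2) a]
        rw [this]
        have := hp.1.1.1
        omega
      · intro n hn
        simp only [mem_filter, mem_product, mem_Icc] at hn ⊢
        have hk := hK a ha n hn.1
        have h4 : (((s * ((n : ℤ) ^ 2 + a)).toNat : ℕ) : ℤ) = s * ((n : ℤ) ^ 2 + a) :=
          Int.toNat_of_nonneg (by linarith [hn.2])
        refine ⟨⟨⟨?_, ?_⟩, hn.1⟩, ?_⟩
        · omega
        · omega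
        · rw [h4]; ring
      · intro p hp
        simp only [mem_filter, mem_product, mem_Icc] at hp
        have : s * ((p.2 : ℤ) ^ 2 + a) = p.1 := by linarith [hp.2, mul_add s ((p.2 : ℤ) ^ 2) a]
        ext
        · simp only [this]
          simp
        · rfl
      · intro n _
        rfl
      · intro p hp
        simp only [mem_filter, mem_product, mem_Icc] at hp
        have : s * ((p.2 : ℤ) ^ 2 + a) = p.1 := by linarith [hp.2, mul_add s ((p.2 : ℤ) ^ 2) a]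
        simp only [this]
    rw [h3, Complex.norm_real, Real.norm_eq_abs, sq_abs]

/-- Parseval for `FF` -/
lemma FF_sq (g : ℤ → ℝ) (K : ℕ) : ∫ α in (0 : ℝ)..1, ‖FF g K α‖ ^ 2 = ∑ k ∈ Icc 1 K, g (k : ℤ) ^ 2 := by
  have h1 := pars (Icc 1 K) (fun k => (k : ℤ)) (fun k => ((g (k : ℤ) : ℝ) : ℂ)) ((Icc 1 K).image (fun k : ℕ => (k : ℤ)))
    (fun i hi => mem_image_of_mem _ hi)
  have h2 : ∀ α : ℝ, ∑ k ∈ Icc 1 K, ((g (k : ℤ) : ℝ) : ℂ) * e ((((k : ℕ) : ℤ) : ℝ) * α) = FF g K α := by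
    intro α
    unfold FF
    refine sum_congr rfl fun k _ => ?_
    push_cast
    rfl
  simp only [h2] at h1
  rw [h1, sum_image (by intro x _ y _ h; simpa using h)]
  refine sum_congr rfl fun k hk => ?_
  have : (Icc 1 K).filter (fun i : ℕ => (i : ℤ) = (k : ℤ)) = {k} := by
    ext i
    simp only [mem_filter, mem_singleton]
    constructor
    · rintro ⟨_, h⟩; exact_mod_cast h
    · rintro rfl; exact ⟨hk, rfl⟩
  rw [this, sum_singleton, Complex.norm_real, Real.norm_eq_abs, sq_abs]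

lemma intg_sum {ι : Type*} (s : Finset ι) (f : ι → ℝ → ℝ) {u v : ℝ}
    (h : ∀ i ∈ s, IntervalIntegrable (f i) volume u v) :
    IntervalIntegrable (fun x => ∑ i ∈ s, f i x) volume u v := by
  have := IntervalIntegrable.sum s h
  have e1 : (fun x => ∑ i ∈ s, f i x) = ∑ i ∈ s, f i := by
    ext x; simp
  rw [e1]
  exact this

/-- the decomposition into arcs -/
theorem arcs (F W : ℝ → ℂ) (hF : Continuous F) (hW : Continuous W) (q₀ Q : ℕ) (hQ : 1 ≤ Q) (M H : ℝ)
    (hM0 : 0 ≤ M)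
    (hH : ∀ α, ‖W α‖ ≤ H)
    (hM : ∀ α : ℝ, ∀ q : ℕ, q₀ < q → q ≤ Q → ∀ a : ℤ, IsCoprime a (q : ℤ) → |α - a / q| ≤ 1 / (q : ℝ) ^ 2 →
      ‖W α‖ ^ 2 ≤ M) :
    ∫ α in (0 : ℝ)..1, ‖F α‖ ^ 2 * ‖W α‖ ^ 2 ≤ M * (∫ α in (0 : ℝ)..1, ‖F α‖ ^ 2) +
      H ^ 2 * ∑ q ∈ Icc 1 q₀, ∑ a ∈ range (q + 1),
        ∫ β in (-(1 / ((Q : ℝ) + 1)))..(1 / ((Q : ℝ) + 1)), ‖F ((a : ℝ) / q + β)‖ ^ 2 := by
  classical
  set δ : ℝ := 1 / ((Q : ℝ) + 1) with hδ
  have hδ0 : 0 < δ := by positivity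
  -- indicator version
  set I : ℕ → ℕ → Set ℝ := fun q a => Set.Icc ((a : ℝ) / q - δ) ((a : ℝ) / q + δ) with hI
  have hpt : ∀ α ∈ Set.Icc (0 : ℝ) 1, ‖F α‖ ^ 2 * ‖W α‖ ^ 2 ≤ M * ‖F α‖ ^ 2 +
      H ^ 2 * ∑ q ∈ Icc 1 q₀, ∑ a ∈ range (q + 1), (I q a).indicator (fun α => ‖F α‖ ^ 2) α := by
    intro α hα
    obtain ⟨r, hr1, hr2⟩ := Real.exists_rat_abs_sub_le_and_den_le α (show 0 < Q by omega)
    have hd1 : 1 ≤ r.den := r.den_pos
    have hd0 : (0 : ℝ) < r.den := by exact_mod_cast r.den_pos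
    have hrr : (r : ℝ) = (r.num : ℝ) / (r.den : ℝ) := by exact_mod_cast (Rat.num_div_den r).symm
    rw [hrr] at hr1
    have hF0 : 0 ≤ ‖F α‖ ^ 2 := by positivity
    have hS0 : 0 ≤ ∑ q ∈ Icc 1 q₀, ∑ a ∈ range (q + 1), (I q a).indicator (fun α => ‖F α‖ ^ 2) α :=
      sum_nonneg fun q _ => sum_nonneg fun a _ => Set.indicator_nonneg (fun _ _ => by positivity) _
    rcases Nat.lt_or_ge q₀ r.den with h | h
    · have h1 := hM α r.den h hr2 r.num (by
          rw [Int.isCoprime_iff_gcd_eq_one]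
          exact r.reduced) (by
          refine hr1.trans ?_
          apply one_div_le_one_div_of_le (by positivity)
          have : (r.den : ℝ) ≤ Q := by exact_mod_cast hr2
          nlinarith)
      have h2 : ‖F α‖ ^ 2 * ‖W α‖ ^ 2 ≤ M * ‖F α‖ ^ 2 := by nlinarith
      have h3 : 0 ≤ H ^ 2 * ∑ q ∈ Icc 1 q₀, ∑ a ∈ range (q + 1), (I q a).indicator (fun α => ‖F α‖ ^ 2) α :=
        mul_nonneg (by positivity) hS0
      linarith
    · -- the major arcs
      have hlt : 1 / (((Q : ℝ) + 1) * r.den) < 1 / r.den := by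
        apply one_div_lt_one_div_of_lt hd0
        have : (1 : ℝ) ≤ Q := by exact_mod_cast hQ
        nlinarith
      have h1 : |(r.den : ℝ) * α - r.num| < 1 := by
        have e1 : (r.den : ℝ) * α - r.num = r.den * (α - r.num / r.den) := by field_simp
        rw [e1, abs_mul, abs_of_pos hd0]
        calc (r.den : ℝ) * |α - r.num / r.den| ≤ r.den * (1 / (((Q : ℝ) + 1) * r.den)) := by gcongr
          _ < r.den * (1 / r.den) := by
              apply mul_lt_mul_of_pos_left hlt hd0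
          _ = 1 := by field_simp
      rw [abs_lt] at h1
      have hn0 : 0 ≤ r.num := by
        have : (-1 : ℝ) < r.num := by nlinarith [hα.1, h1.2]
        have : (-1 : ℤ) < r.num := by exact_mod_cast this
        omega
      have hn1 : r.num ≤ r.den := by
        have : (r.num : ℝ) < r.den + 1 := by nlinarith [hα.2, h1.1]
        have : r.num < (r.den : ℤ) + 1 := by exact_mod_cast this
        omega
      obtain ⟨A, hA⟩ := Int.eq_ofNat_of_zero_le hn0
      have hAr : (r.num : ℝ) = (A : ℝ) := by rw [hA]; push_cast; rfl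
      rw [hAr] at hr1
      have hAm : A ∈ range (r.den + 1) := by rw [mem_range]; omega
      have hqm : r.den ∈ Icc 1 q₀ := by rw [mem_Icc]; exact ⟨hd1, h⟩
      have hin : α ∈ I r.den A := by
        simp only [hI, Set.mem_Icc]
        have h2 : 1 / (((Q : ℝ) + 1) * r.den) ≤ δ := by
          rw [hδ]
          apply one_div_le_one_div_of_le (by positivity)
          have : (1 : ℝ) ≤ r.den := by exact_mod_cast hd1
          nlinarith
        have h3 := abs_le.1 (hr1.trans h2)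
        constructor <;> linarith [h3.1, h3.2]
      have h4 : ‖F α‖ ^ 2 ≤ ∑ q ∈ Icc 1 q₀, ∑ a ∈ range (q + 1), (I q a).indicator (fun α => ‖F α‖ ^ 2) α := by
        have h5 : ‖F α‖ ^ 2 = (I r.den A).indicator (fun α => ‖F α‖ ^ 2) α := by
          rw [Set.indicator_of_mem hin]
        rw [h5]
        refine le_trans ?_ (single_le_sum (f := fun q => ∑ a ∈ range (q + 1), (I q a).indicator (fun α => ‖F α‖ ^ 2) α)
          (fun q _ => sum_nonneg fun a _ => Set.indicator_nonneg (fun _ _ => by positivity) _) hqm)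
        exact single_le_sum (f := fun a => (I r.den a).indicator (fun α => ‖F α‖ ^ 2) α)
          (fun a _ => Set.indicator_nonneg (fun _ _ => by positivity) _) hAm
      have h6 : ‖W α‖ ^ 2 ≤ H ^ 2 := by
        have := hH α
        gcongr
      have h7 : 0 ≤ M * ‖F α‖ ^ 2 := by positivity
      calc ‖F α‖ ^ 2 * ‖W α‖ ^ 2 ≤ ‖F α‖ ^ 2 * H ^ 2 := by gcongr
        _ = H ^ 2 * ‖F α‖ ^ 2 := by ring
        _ ≤ H ^ 2 * ∑ q ∈ Icc 1 q₀, ∑ a ∈ range (q + 1), (I q a).indicator (fun α => ‖F α‖ ^ 2) α := by gcongr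
        _ ≤ _ := by linarith
  have hFi : ∀ u v : ℝ, IntervalIntegrable (fun α => ‖F α‖ ^ 2) volume u v := fun u v =>
    (hF.norm.pow 2).intervalIntegrable _ _
  have hind : ∀ q a, IntervalIntegrable ((I q a).indicator (fun α => ‖F α‖ ^ 2)) volume 0 1 := by
    intro q a
    rw [intervalIntegrable_iff]
    exact ((intervalIntegrable_iff.1 (hFi 0 1)).indicator measurableSet_Icc)
  have hq1 : ∀ q, IntervalIntegrable (fun α => ∑ a ∈ range (q + 1),
      (I q a).indicator (fun α => ‖F α‖ ^ 2) α) volume 0 1 := fun q =>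
    intg_sum _ _ fun a _ => hind q a
  have hsumi : IntervalIntegrable (fun α => ∑ q ∈ Icc 1 q₀, ∑ a ∈ range (q + 1),
      (I q a).indicator (fun α => ‖F α‖ ^ 2) α) volume 0 1 := by
    exact intg_sum _ _ fun q _ => hq1 q
  have h1 : ∫ α in (0 : ℝ)..1, ‖F α‖ ^ 2 * ‖W α‖ ^ 2 ≤ ∫ α in (0 : ℝ)..1, (M * ‖F α‖ ^ 2 +
      H ^ 2 * ∑ q ∈ Icc 1 q₀, ∑ a ∈ range (q + 1), (I q a).indicator (fun α => ‖F α‖ ^ 2) α) := by
    refine intervalIntegral.integral_mono_on (by norm_num) ?_ ?_ hpt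
    · have : Continuous fun α => ‖F α‖ ^ 2 * ‖W α‖ ^ 2 := by fun_prop
      exact this.intervalIntegrable _ _
    · exact ((hFi 0 1).const_mul M).add (hsumi.const_mul (H ^ 2))
  refine h1.trans ?_
  rw [intervalIntegral.integral_add ((hFi 0 1).const_mul M) (hsumi.const_mul (H ^ 2)),
    intervalIntegral.integral_const_mul, intervalIntegral.integral_const_mul]
  apply add_le_add le_rfl
  apply mul_le_mul_of_nonneg_left _ (by positivity)
  rw [intervalIntegral.integral_finsetSum (fun q _ => hq1 q)]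
  refine sum_le_sum fun q _ => ?_
  rw [intervalIntegral.integral_finsetSum (fun a _ => hind q a)]
  refine sum_le_sum fun a _ => ?_
  have h2 : ∫ β in (-δ)..δ, ‖F ((a : ℝ) / q + β)‖ ^ 2 = ∫ α in ((a : ℝ) / q - δ)..((a : ℝ) / q + δ), ‖F α‖ ^ 2 := by
    have := intervalIntegral.integral_comp_add_left (fun α => ‖F α‖ ^ 2) ((a : ℝ) / q) (a := -δ) (b := δ)
    rw [this]
    rfl
  rw [h2, intervalIntegral.integral_of_le (by norm_num), intervalIntegral.integral_of_le (by linarith),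
    integral_indicator measurableSet_Icc, ← integral_Icc_eq_integral_Ioc, Measure.restrict_restrict measurableSet_Icc]
  apply setIntegral_mono_set
  · exact (hF.norm.pow 2).continuousOn.integrableOn_Icc
  · exact Filter.Eventually.of_forall fun v => by simp only [Pi.zero_apply]; positivity
  · exact (Set.inter_subset_left).eventuallyLE

end Run7.h385.CR
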