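import Pool.Agent.Run7.h385.CR.MomA

/-!
# Project CR, piece T1M: the second moment in terms of the short windows
-/

set_option autoImplicit false

namespace Run7.h385.CR

open Finset MeasureTheory
open Pool.Agent.H469R2.NK (e norm_e e_add conj_e e_zero)
open Run7.h757.CR

lemma dyad (w : ℕ → ℝ) (hw : ∀ m, 0 ≤ w m) (x₀ K : ℕ) (hx₀ : 1 ≤ x₀) (V : ℝ) (hV : 0 ≤ V)
    (h : ∀ x, x₀ ≤ x → x < K → ∑ m ∈ Ioc x (2 * x), w m ≤ x * V) :
    ∑ m ∈ Ioc x₀ K, w m ≤ 2 * K * V := by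
  have key : ∀ d x : ℕ, x₀ ≤ x → K - x ≤ d → x ≤ 2 * K → ∑ m ∈ Ioc x K, w m ≤ (2 * K - x) * V := by
    intro d
    induction d with
    | zero =>
      intro x _ hd hx
      rw [Ioc_eq_empty (by omega), sum_empty]
      apply mul_nonneg _ hV
      have : (x : ℝ) ≤ 2 * K := by exact_mod_cast hx
      linarith
    | succ d ih =>
      intro x hx0 hd hx
      rcases Nat.lt_or_ge x K with hlt | hge
      · have h1 := ih (2 * x) (by omega) (by omega) (by omega)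
        have h2 := h x hx0 hlt
        have h3 : ∑ m ∈ Ioc x K, w m ≤ ∑ m ∈ Ioc x (2 * x), w m + ∑ m ∈ Ioc (2 * x) K, w m := by
          rw [← sum_union (by
            rw [disjoint_left]
            intro y hy hy2
            rw [mem_Ioc] at hy hy2
            omega)]
          apply sum_le_sum_of_subset_of_nonneg
          · intro y hy
            rw [mem_union, mem_Ioc, mem_Ioc]
            rw [mem_Ioc] at hy
            omega
          · intro y _ _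
            exact hw y
        push_cast at h1
        nlinarith
      · rw [Ioc_eq_empty (by omega), sum_empty]
        apply mul_nonneg _ hV
        have : (x : ℝ) ≤ 2 * K := by exact_mod_cast hx
        linarith
  rcases Nat.lt_or_ge x₀ K with hlt | hge
  · have := key (K - x₀) x₀ le_rfl le_rfl (by omega)
    have h0 : (0 : ℝ) ≤ x₀ := Nat.cast_nonneg _
    nlinarith
  · rw [Ioc_eq_empty (by omega), sum_empty]
    positivity

/-- the windows of Gallagher's lemma -/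
lemma wins (c : ℕ → ℂ) (G0 : ℝ) (hG0 : 0 ≤ G0) (hc : ∀ k, ‖c k‖ ≤ G0) (K Y x₀ : ℕ) :
    ∑ m ∈ Icc (-(Y : ℤ)) K, ‖∑ k ∈ (Icc 1 K).filter (fun k : ℕ => m < k ∧ (k : ℤ) ≤ m + Y), c k‖ ^ 2 ≤
      (x₀ + 2 * Y + 1) * (Y * G0) ^ 2 + ∑ m ∈ Ioc x₀ K, ‖∑ k ∈ Ioc m (m + Y), c k‖ ^ 2 := by
  have hpt : ∀ m ∈ Icc (-(Y : ℤ)) K, ‖∑ k ∈ (Icc 1 K).filter (fun k : ℕ => m < k ∧ (k : ℤ) ≤ m + Y), c k‖ ^ 2 ≤
      (if m ≤ x₀ ∨ (K : ℤ) - Y < m then (Y * G0) ^ 2 else 0) +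
      (if (x₀ : ℤ) < m then ‖∑ k ∈ Ioc m.toNat (m.toNat + Y), c k‖ ^ 2 else 0) := by
    intro m _
    by_cases h : m ≤ x₀ ∨ (K : ℤ) - Y < m
    · rw [if_pos h]
      have h1 : ‖∑ k ∈ (Icc 1 K).filter (fun k : ℕ => m < k ∧ (k : ℤ) ≤ m + Y), c k‖ ≤ Y * G0 := by
        refine (norm_sum_le _ _).trans ?_
        refine (sum_le_card_nsmul _ _ G0 fun k _ => hc k).trans ?_
        rw [nsmul_eq_mul]
        apply mul_le_mul_of_nonneg_right _ hG0
        have h2 : #((Icc 1 K).filter (fun k : ℕ => m < k ∧ (k : ℤ) ≤ m + Y)) ≤ Y := by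
          have h3 : ((Icc 1 K).filter (fun k : ℕ => m < k ∧ (k : ℤ) ≤ m + Y)).map Nat.castEmbedding ⊆
              Ioc m (m + Y) := by
            intro k hk
            simp only [mem_map, mem_filter, Nat.castEmbedding_apply] at hk
            obtain ⟨k', hk', rfl⟩ := hk
            rw [mem_Ioc]
            exact hk'.2
          have h4 := card_le_card h3
          rw [card_map, Int.card_Ioc] at h4
          omega
        exact_mod_cast h2
      have h2 : ‖∑ k ∈ (Icc 1 K).filter (fun k : ℕ => m < k ∧ (k : ℤ) ≤ m + Y), c k‖ ^ 2 ≤ (Y * G0) ^ 2 := by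
        gcongr
      have h3 : 0 ≤ (if (x₀ : ℤ) < m then ‖∑ k ∈ Ioc m.toNat (m.toNat + Y), c k‖ ^ 2 else 0) := by
        split_ifs <;> positivity
      linarith
    · rw [if_neg h, zero_add]
      push Not at h
      rw [if_pos h.1]
      have h1 : (Icc 1 K).filter (fun k : ℕ => m < k ∧ (k : ℤ) ≤ m + Y) = Ioc m.toNat (m.toNat + Y) := by
        ext k
        simp only [mem_filter, mem_Icc, mem_Ioc]
        have := h.1
        have := h.2
        omega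
      rw [h1]
  refine (sum_le_sum hpt).trans ?_
  rw [sum_add_distrib]
  apply add_le_add
  · rw [← sum_filter, sum_const, nsmul_eq_mul]
    apply mul_le_mul_of_nonneg_right _ (by positivity)
    have h1 : (Icc (-(Y : ℤ)) (K : ℤ)).filter (fun m : ℤ => m ≤ (x₀ : ℤ) ∨ (K : ℤ) - Y < m) ⊆
        Icc (-(Y : ℤ)) (x₀ : ℤ) ∪ Ioc ((K : ℤ) - Y) K := by
      intro m hm
      simp only [mem_filter, mem_Icc, mem_union, mem_Ioc] at hm ⊢
      omega
    have h2 := (card_le_card h1).trans (card_union_le _ _)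
    rw [Int.card_Icc, Int.card_Ioc] at h2
    have h3 : #((Icc (-(Y : ℤ)) (K : ℤ)).filter (fun m : ℤ => m ≤ (x₀ : ℤ) ∨ (K : ℤ) - Y < m)) ≤ x₀ + 2 * Y + 1 := by
      omega
    exact_mod_cast h3
  · rw [← sum_filter]
    refine le_of_eq ?_
    refine sum_bij' (fun m _ => m.toNat) (fun m _ => (m : ℤ)) ?_ ?_ ?_ ?_ ?_
    · intro m hm
      simp only [mem_filter, mem_Icc, mem_Ioc] at hm ⊢
      omega
    · intro m hm
      simp only [mem_filter, mem_Icc, mem_Ioc] at hm ⊢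
      omega
    · intro m hm
      simp only [mem_filter, mem_Icc] at hm
      exact Int.toNat_of_nonneg (by omega)
    · intro m _
      exact Int.toNat_natCast m
    · intro m _
      rfl

/-- one arc -/
lemma one_arc (g : ℤ → ℝ) (G0 : ℝ) (hG : ∀ v, |g v| ≤ G0) (K Y Q x₀ q a : ℕ)
    (hY : 1 ≤ Y) (hYQ : 2 * Y ≤ Q + 1) (hx₀ : 1 ≤ x₀) (v : ℝ) (hv : 0 ≤ v)
    (hV : ∀ x, x₀ ≤ x → x < K →
      ∑ m ∈ Ioc x (2 * x), ‖∑ n ∈ Ioc m (m + Y), (g (n : ℤ) : ℂ) * e ((a : ℝ) * n / q)‖ ^ 2 ≤ x * (Y : ℝ) ^ 2 * v) :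
    ∫ β in (-(1 / ((Q : ℝ) + 1)))..(1 / ((Q : ℝ) + 1)), ‖FF g K ((a : ℝ) / q + β)‖ ^ 2 ≤
      3 * ((x₀ + 2 * Y + 1) * G0 ^ 2 + 2 * K * v) := by
  have hG0 : 0 ≤ G0 := (abs_nonneg _).trans (hG 0)
  have hY0 : (0 : ℝ) < Y := by exact_mod_cast hY
  set δ : ℝ := 1 / ((Q : ℝ) + 1) with hδ
  have hδ0 : 0 < δ := by positivity
  have hδY : δ ≤ 1 / (2 * (Y : ℝ)) := by
    rw [hδ]
    apply one_div_le_one_div_of_le (by positivity)
    exact_mod_cast hYQ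
  set c : ℕ → ℂ := fun k => (g (k : ℤ) : ℂ) * e ((a : ℝ) * k / q) with hcdef
  have hc : ∀ k, ‖c k‖ ≤ G0 := by
    intro k
    simp only [hcdef]
    rw [norm_mul, norm_e, mul_one, Complex.norm_real, Real.norm_eq_abs]
    exact hG _
  have h1 : ∀ β : ℝ, FF g K ((a : ℝ) / q + β) = ∑ k ∈ Icc 1 K, c k * e ((k : ℝ) * β) := by
    intro β
    unfold FF
    refine sum_congr rfl fun k _ => ?_
    simp only [hcdef]
    rw [mul_assoc, ← e_add]
    congr 2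
    ring
  have hcont : Continuous fun β : ℝ => ‖FF g K ((a : ℝ) / q + β)‖ ^ 2 := by
    have := FF_cont g K
    exact ((this.comp (by fun_prop : Continuous fun β : ℝ => (a : ℝ) / q + β)).norm).pow 2
  have h2 : ∫ β in (-δ)..δ, ‖FF g K ((a : ℝ) / q + β)‖ ^ 2 ≤
      ∫ β in (-(1 / (2 * (Y : ℝ))))..(1 / (2 * (Y : ℝ))), ‖FF g K ((a : ℝ) / q + β)‖ ^ 2 := by
    have hi : IntervalIntegrable (fun β : ℝ => ‖FF g K ((a : ℝ) / q + β)‖ ^ 2) volume
      (-(1 / (2 * (Y : ℝ)))) (1 / (2 * (Y : ℝ))) := hcont.intervalIntegrable _ _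
    exact intervalIntegral.integral_mono_interval (by linarith) (by linarith) hδY
      (Filter.Eventually.of_forall fun v => by simp only [Pi.zero_apply]; positivity) hi
  refine h2.trans ?_
  simp only [h1]
  refine (gal K Y c hY).trans ?_
  have h3 := wins c G0 hG0 hc K Y x₀
  have h4 := dyad (fun m => ‖∑ k ∈ Ioc m (m + Y), c k‖ ^ 2) (fun m => by positivity) x₀ K hx₀
    ((Y : ℝ) ^ 2 * v) (by positivity) (by
      intro x hx hxK
      rw [← mul_assoc]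
      exact hV x hx hxK)
  calc 3 / (Y : ℝ) ^ 2 * ∑ m ∈ Icc (-(Y : ℤ)) K,
        ‖∑ k ∈ (Icc 1 K).filter (fun k : ℕ => m < k ∧ (k : ℤ) ≤ m + Y), c k‖ ^ 2
      ≤ 3 / (Y : ℝ) ^ 2 * ((x₀ + 2 * Y + 1) * (Y * G0) ^ 2 + 2 * K * ((Y : ℝ) ^ 2 * v)) := by
        apply mul_le_mul_of_nonneg_left _ (by positivity)
        linarith
    _ = _ := by field_simp

/-- the second moment, without the choice of the parameters -/
theorem core (Cw : ℝ) (hCw : 1 ≤ Cw) (hwey : ∀ (m H q : ℕ) (a : ℤ) (α : ℝ), 1 ≤ H → 1 ≤ q →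
      IsCoprime a (q : ℤ) → |α - a / q| ≤ 1 / (q : ℝ) ^ 2 →
      ‖∑ n ∈ Ioc m (m + H), e (α * (n : ℝ) ^ 2)‖ ^ 2 ≤ Cw * ((H : ℝ) ^ 2 / q + H + q) * (1 + Real.log q))
    (g : ℤ → ℝ) (hg : ∀ v, v ≤ 0 → g v = 0) (G0 : ℝ) (hG : ∀ v, |g v| ≤ G0)
    (X K m H Y Q q₀ x₀ : ℕ) (s : ℤ) (hs : s = 1 ∨ s = -1)
    (hK : ∀ a ∈ Icc (-(X : ℤ)) X, ∀ n ∈ Ioc m (m + H), s * ((n : ℤ) ^ 2 + a) ≤ K)
    (hH : 1 ≤ H) (hQ : 1 ≤ Q)
    (hY : 1 ≤ Y) (hYQ : 2 * Y ≤ Q + 1) (hx₀ : 1 ≤ x₀) (v : ℝ) (hv : 0 ≤ v)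
    (hV : ∀ q, 1 ≤ q → q ≤ q₀ → ∀ a x : ℕ, x₀ ≤ x → x < K →
      ∑ m ∈ Ioc x (2 * x), ‖∑ n ∈ Ioc m (m + Y), (g (n : ℤ) : ℂ) * e ((a : ℝ) * n / q)‖ ^ 2 ≤ x * (Y : ℝ) ^ 2 * v) :
    ∑ a ∈ Icc (-(X : ℤ)) X, (∑ n ∈ Ioc m (m + H), g (s * ((n : ℤ) ^ 2 + a))) ^ 2 ≤
      Cw * ((H : ℝ) ^ 2 / (q₀ + 1) + H + Q) * (1 + Real.log Q) * (K * G0 ^ 2) +
      (H : ℝ) ^ 2 * (q₀ * (q₀ + 1)) * (3 * ((x₀ + 2 * Y + 1) * G0 ^ 2 + 2 * K * v)) := by
  have hG0 : 0 ≤ G0 := (abs_nonneg _).trans (hG 0)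
  refine (circle g hg X K m H s hs hK).trans ?_
  have hQr : (1 : ℝ) ≤ Q := by exact_mod_cast hQ
  have hlQ : 0 ≤ Real.log Q := Real.log_nonneg hQr
  set M : ℝ := Cw * ((H : ℝ) ^ 2 / (q₀ + 1) + H + Q) * (1 + Real.log Q) with hM
  have hM0 : 0 ≤ M := by positivity
  have h1 := arcs (FF g K) (WW m H) (FF_cont g K) (WW_cont m H) q₀ Q hQ M H hM0 (WW_le m H) (by
    intro α q hq1 hq2 a hcop hα
    have h2 := hwey m H q a α hH (by omega) hcop hα
    refine h2.trans ?_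
    have hqr : (q : ℝ) ≤ Q := by exact_mod_cast hq2
    have hq1r : (q₀ : ℝ) + 1 ≤ q := by exact_mod_cast hq1
    have hq1' : (1 : ℝ) ≤ q := by
      have : (0 : ℝ) ≤ q₀ := Nat.cast_nonneg _
      linarith
    have hlq : 0 ≤ Real.log q := Real.log_nonneg hq1'
    have hll : Real.log q ≤ Real.log Q := Real.log_le_log (by linarith) hqr
    rw [hM]
    gcongr)
  refine h1.trans ?_
  apply add_le_add
  · apply mul_le_mul_of_nonneg_left _ hM0
    rw [FF_sq]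
    calc ∑ k ∈ Icc 1 K, g (k : ℤ) ^ 2 ≤ ∑ k ∈ Icc 1 K, G0 ^ 2 := by
          refine sum_le_sum fun k _ => ?_
          rw [← sq_abs (g _)]
          exact pow_le_pow_left₀ (abs_nonneg _) (hG _) 2
      _ = K * G0 ^ 2 := by rw [sum_const, Nat.card_Icc, nsmul_eq_mul, Nat.add_sub_cancel]
  · rw [mul_assoc]
    apply mul_le_mul_of_nonneg_left _ (by positivity)
    set R : ℝ := 3 * ((x₀ + 2 * Y + 1) * G0 ^ 2 + 2 * K * v) with hR
    have hR0 : 0 ≤ R := by positivity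
    calc ∑ q ∈ Icc 1 q₀, ∑ a ∈ range (q + 1),
          ∫ β in (-(1 / ((Q : ℝ) + 1)))..(1 / ((Q : ℝ) + 1)), ‖FF g K ((a : ℝ) / q + β)‖ ^ 2
        ≤ ∑ q ∈ Icc 1 q₀, ∑ a ∈ range (q₀ + 1), R := by
          refine sum_le_sum fun q hq => ?_
          rw [mem_Icc] at hq
          refine (sum_le_sum (g := fun _ => R) fun a _ =>
            one_arc g G0 hG K Y Q x₀ q a hY hYQ hx₀ v hv (hV q hq.1 hq.2 a)).trans ?_
          apply sum_le_sum_of_subset_of_nonneg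
          · exact range_subset_range.2 (by omega)
          · intro _ _ _
            exact hR0
      _ = q₀ * (q₀ + 1) * R := by
          rw [sum_const, sum_const, Nat.card_Icc, card_range, nsmul_eq_mul, nsmul_eq_mul, Nat.add_sub_cancel]
          push_cast
          ring

end Run7.h385.CR
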